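import Mathlib

set_option autoImplicit false
open Filter Topology

namespace Pool.Agent.Helper99

/-- Green function identity for the free lattice equation. -/
theorem lattice_green (g : ℤ → ℂ) (x P : ℂ)
    (hg : ∀ m : ℤ, x * g m = g (m + 1) + g (m - 1) + (if m = 0 then P else 0))
    (h1 : Tendsto (fun n : ℕ => g (n : ℤ)) atTop (𝓝 0))
    (h2 : Tendsto (fun n : ℕ => g (-(n : ℤ))) atTop (𝓝 0)) (hP : P ≠ 0) :
    (x ^ 2 - 4) * g 0 ^ 2 = P ^ 2 := by
  have A1 : ∀ n : ℕ, g (n : ℤ) ^ 2 + g ((n : ℤ) + 1) ^ 2 - x * g (n : ℤ) * g ((n : ℤ) + 1)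
      = g 0 ^ 2 + g 1 ^ 2 - x * g 0 * g 1 := by
    intro n
    induction n with
    | zero => simp
    | succ n ih =>
      rw [← ih]
      have h := hg ((n : ℤ) + 1)
      have hne : ((n : ℤ) + 1) ≠ 0 := by positivity
      rw [if_neg hne] at h
      have e1 : (n : ℤ) + 1 - 1 = n := by ring
      rw [e1] at h
      push_cast
      linear_combination (g (n : ℤ) - g ((n : ℤ) + 1 + 1)) * h
  have A2 : ∀ n : ℕ, g (-(n : ℤ)) ^ 2 + g (-(n : ℤ) - 1) ^ 2 - x * g (-(n : ℤ)) * g (-(n : ℤ) - 1)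
      = g 0 ^ 2 + g (-1) ^ 2 - x * g 0 * g (-1) := by
    intro n
    induction n with
    | zero => simp
    | succ n ih =>
      rw [← ih]
      have h := hg (-(n : ℤ) - 1)
      have hne : (-(n : ℤ) - 1) ≠ 0 := by
        have : (0 : ℤ) ≤ n := by positivity
        omega
      rw [if_neg hne] at h
      have e1 : -(n : ℤ) - 1 + 1 = -n := by ring
      rw [e1] at h
      push_cast
      have e2 : -((n : ℤ) + 1) = -(n : ℤ) - 1 := by ring
      rw [e2]
      linear_combination (g (-(n : ℤ)) - g (-(n : ℤ) - 1 - 1)) * h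
  have h1' : Tendsto (fun n : ℕ => g ((n : ℤ) + 1)) atTop (𝓝 0) := by
    have := h1.comp (tendsto_add_atTop_nat 1)
    refine this.congr (fun n => ?_)
    simp
  have h2' : Tendsto (fun n : ℕ => g (-(n : ℤ) - 1)) atTop (𝓝 0) := by
    have := h2.comp (tendsto_add_atTop_nat 1)
    refine this.congr (fun n => ?_)
    simp only [Function.comp]
    congr 1
    push_cast
    ring
  have B1 : g 0 ^ 2 + g 1 ^ 2 - x * g 0 * g 1 = 0 := by
    have hl : Tendsto (fun n : ℕ => g (n : ℤ) ^ 2 + g ((n : ℤ) + 1) ^ 2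
        - x * g (n : ℤ) * g ((n : ℤ) + 1)) atTop (𝓝 (0 ^ 2 + 0 ^ 2 - x * 0 * 0)) :=
      ((h1.pow 2).add (h1'.pow 2)).sub ((h1.const_mul x).mul h1')
    simp_rw [A1] at hl
    have := tendsto_nhds_unique hl tendsto_const_nhds
    simpa using this.symm
  have B2 : g 0 ^ 2 + g (-1) ^ 2 - x * g 0 * g (-1) = 0 := by
    have hl : Tendsto (fun n : ℕ => g (-(n : ℤ)) ^ 2 + g (-(n : ℤ) - 1) ^ 2
        - x * g (-(n : ℤ)) * g (-(n : ℤ) - 1)) atTop (𝓝 (0 ^ 2 + 0 ^ 2 - x * 0 * 0)) :=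
      ((h2.pow 2).add (h2'.pow 2)).sub ((h2.const_mul x).mul h2')
    simp_rw [A2] at hl
    have := tendsto_nhds_unique hl tendsto_const_nhds
    simpa using this.symm
  have C0 := hg 0
  simp only [zero_add, zero_sub, if_true] at C0
  have D : g 1 - g (-1) = 0 := by
    have : (g 1 - g (-1)) * P = 0 := by
      linear_combination (B2 - B1) - (g 1 - g (-1)) * C0
    rcases mul_eq_zero.mp this with h | h
    · exact h
    · exact absurd h hP
  have D' : g (-1) = g 1 := by linear_combination -D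
  rw [D'] at C0
  linear_combination (-4) * B1 + (x * g 0 + P - 2 * g 1) * C0

end Pool.Agent.Helper99
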