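import Mathlib

set_option autoImplicit false
open MeasureTheory Filter Topology
open scoped InnerProductSpace

namespace Pool.Agent.Helper99

noncomputable abbrev L2 := lp (fun _ : ℤ => ℂ) 2

/-- the difference expression -/
def hop (Q : ℤ → ℝ) (ψ : ℤ → ℂ) : ℤ → ℂ := fun m : ℤ => ψ (m + 1) + ψ (m - 1) + (Q m : ℂ) * ψ m

theorem memlp_iff (ψ : ℤ → ℂ) : Memℓp ψ 2 ↔ Summable (fun n => ‖ψ n‖ ^ 2) := by
  rw [memℓp_gen_iff (by norm_num)]
  simp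

theorem memlp_shift (ψ : ℤ → ℂ) (h : Memℓp ψ 2) (k : ℤ) : Memℓp (fun n => ψ (n + k)) 2 := by
  rw [memlp_iff] at *
  exact (Equiv.summable_iff (Equiv.addRight k) (f := fun n => ‖ψ n‖ ^ 2)).mpr h

theorem memlp_mul (Q : ℤ → ℝ) (C : ℝ) (hQ : ∀ n, |Q n| ≤ C) (ψ : ℤ → ℂ) (h : Memℓp ψ 2) :
    Memℓp (fun n => (Q n : ℂ) * ψ n) 2 := by
  rw [memlp_iff] at *
  refine Summable.of_nonneg_of_le (fun n => by positivity) (fun n => ?_) (h.mul_left (C ^ 2))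
  rw [norm_mul, mul_pow, Complex.norm_real, Real.norm_eq_abs]
  apply mul_le_mul_of_nonneg_right _ (by positivity)
  exact pow_le_pow_left₀ (abs_nonneg _) (hQ n) 2

theorem memlp_hop (Q : ℤ → ℝ) (C : ℝ) (hQ : ∀ n, |Q n| ≤ C) (ψ : ℤ → ℂ) (h : Memℓp ψ 2) :
    Memℓp (hop Q ψ) 2 := by
  have h1 := memlp_shift ψ h 1
  have h2 := memlp_shift ψ h (-1)
  have h3 := memlp_mul Q C hQ ψ h
  exact (h1.add h2).add h3

/-- the Schrodinger operator as a linear map -/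
noncomputable def opLM (Q : ℤ → ℝ) (C : ℝ) (hQ : ∀ n, |Q n| ≤ C) : L2 →ₗ[ℂ] L2 where
  toFun ψ := ⟨hop Q ψ, memlp_hop Q C hQ ψ ψ.2⟩
  map_add' := by
    intro x y
    ext n
    simp only [hop, lp.coeFn_add, Pi.add_apply]
    ring
  map_smul' := by
    intro c x
    ext n
    simp only [hop, lp.coeFn_smul, Pi.smul_apply, smul_eq_mul, RingHom.id_apply]
    ring

theorem opLM_apply (Q : ℤ → ℝ) (C : ℝ) (hQ : ∀ n, |Q n| ≤ C) (ψ : L2) (n : ℤ) :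
    (opLM Q C hQ ψ : ℤ → ℂ) n = ψ (n + 1) + ψ (n - 1) + (Q n : ℂ) * ψ n := rfl

theorem inner_summable (f g : ℤ → ℂ) (hf : Memℓp f 2) (hg : Memℓp g 2) :
    Summable (fun n => (starRingEnd ℂ) (f n) * g n) := by
  have := lp.summable_inner (𝕜 := ℂ) (⟨f, hf⟩ : L2) (⟨g, hg⟩ : L2)
  refine this.congr (fun n => ?_)
  simp [mul_comm]

theorem opLM_symm (Q : ℤ → ℝ) (C : ℝ) (hQ : ∀ n, |Q n| ≤ C) : (opLM Q C hQ).IsSymmetric := by
  intro x y
  rw [lp.inner_eq_tsum, lp.inner_eq_tsum]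
  have e1 : ∀ n : ℤ, inner ℂ ((opLM Q C hQ x : ℤ → ℂ) n) ((y : ℤ → ℂ) n)
      = ((starRingEnd ℂ) (x (n + 1)) * y n + (starRingEnd ℂ) (x (n - 1)) * y n)
        + (starRingEnd ℂ) (x n) * ((Q n : ℂ) * y n) := by
    intro n
    rw [opLM_apply]
    simp only [RCLike.inner_apply, map_add, map_mul, Complex.conj_ofReal]
    ring
  have e2 : ∀ n : ℤ, inner ℂ ((x : ℤ → ℂ) n) ((opLM Q C hQ y : ℤ → ℂ) n)
      = ((starRingEnd ℂ) (x n) * y (n + 1) + (starRingEnd ℂ) (x n) * y (n - 1))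
        + (starRingEnd ℂ) (x n) * ((Q n : ℂ) * y n) := by
    intro n
    rw [opLM_apply]
    simp only [RCLike.inner_apply]
    ring
  simp_rw [e1, e2]
  have s1 : Summable (fun n : ℤ => (starRingEnd ℂ) (x (n + 1)) * y n) :=
    inner_summable _ _ (memlp_shift x x.2 1) y.2
  have s2 : Summable (fun n : ℤ => (starRingEnd ℂ) (x (n - 1)) * y n) :=
    inner_summable _ _ (memlp_shift x x.2 (-1)) y.2
  have s3 : Summable (fun n : ℤ => (starRingEnd ℂ) (x n) * ((Q n : ℂ) * y n)) :=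
    inner_summable _ _ x.2 (memlp_mul Q C hQ y y.2)
  have s4 : Summable (fun n : ℤ => (starRingEnd ℂ) (x n) * y (n + 1)) :=
    inner_summable _ _ x.2 (memlp_shift y y.2 1)
  have s5 : Summable (fun n : ℤ => (starRingEnd ℂ) (x n) * y (n - 1)) :=
    inner_summable _ _ x.2 (memlp_shift y y.2 (-1))
  rw [(s1.add s2).tsum_add s3, (s4.add s5).tsum_add s3, s1.tsum_add s2, s4.tsum_add s5]
  congr 1
  have t1 : ∑' n : ℤ, (starRingEnd ℂ) (x (n + 1)) * y n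
      = ∑' n : ℤ, (starRingEnd ℂ) (x n) * y (n - 1) := by
    rw [← (Equiv.addRight (-1 : ℤ)).tsum_eq (fun n : ℤ => (starRingEnd ℂ) (x (n + 1)) * y n)]
    apply tsum_congr
    intro n
    simp [sub_eq_add_neg]
  have t2 : ∑' n : ℤ, (starRingEnd ℂ) (x (n - 1)) * y n
      = ∑' n : ℤ, (starRingEnd ℂ) (x n) * y (n + 1) := by
    rw [← (Equiv.addRight (1 : ℤ)).tsum_eq (fun n : ℤ => (starRingEnd ℂ) (x (n - 1)) * y n)]
    apply tsum_congr
    intro n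
    simp
  rw [t1, t2, add_comm]

/-- the Schrodinger operator as a bounded operator -/
noncomputable def op (Q : ℤ → ℝ) (C : ℝ) (hQ : ∀ n, |Q n| ≤ C) : L2 →L[ℂ] L2 :=
  ⟨opLM Q C hQ, (opLM_symm Q C hQ).continuous⟩

theorem op_apply (Q : ℤ → ℝ) (C : ℝ) (hQ : ∀ n, |Q n| ≤ C) (ψ : L2) (n : ℤ) :
    (op Q C hQ ψ : ℤ → ℂ) n = ψ (n + 1) + ψ (n - 1) + (Q n : ℂ) * ψ n := rfl

theorem op_selfAdjoint (Q : ℤ → ℝ) (C : ℝ) (hQ : ∀ n, |Q n| ≤ C) :
    IsSelfAdjoint (op Q C hQ) := by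
  rw [ContinuousLinearMap.isSelfAdjoint_iff_isSymmetric]
  exact opLM_symm Q C hQ

theorem op_pow_apply (Q : ℤ → ℝ) (C : ℝ) (hQ : ∀ n, |Q n| ≤ C) (ψ : L2) (k : ℕ) :
    (((op Q C hQ) ^ k) ψ : ℤ → ℂ) = Nat.iterate (fun ψ : ℤ → ℂ => fun m : ℤ =>
                  ψ (m + 1) + ψ (m - 1) + (Q m : ℂ) * ψ m) k ψ := by
  induction k with
  | zero => simp
  | succ k ih =>
    rw [pow_succ', Function.iterate_succ_apply', ← ih]
    rfl

/-- difference of two operators -/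
theorem op_sub_norm (Q Q' : ℤ → ℝ) (C : ℝ) (hQ : ∀ n, |Q n| ≤ C) (hQ' : ∀ n, |Q' n| ≤ C)
    (ε : ℝ) (hε : 0 ≤ ε) (h : ∀ n, |Q n - Q' n| ≤ ε) : ‖op Q C hQ - op Q' C hQ'‖ ≤ ε := by
  apply ContinuousLinearMap.opNorm_le_bound _ hε
  intro ψ
  have hle : ∀ n, ‖((op Q C hQ - op Q' C hQ') ψ : ℤ → ℂ) n‖ ≤ ‖((ε : ℂ) • ψ : L2) n‖ := by
    intro n
    have : ((op Q C hQ - op Q' C hQ') ψ : ℤ → ℂ) n = ((Q n - Q' n : ℝ) : ℂ) * ψ n := by
      rw [sub_apply, lp.coeFn_sub, Pi.sub_apply, op_apply, op_apply]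
      push_cast
      ring
    rw [this, norm_mul, Complex.norm_real, Real.norm_eq_abs, lp.coeFn_smul, Pi.smul_apply,
      norm_smul, Complex.norm_real, Real.norm_eq_abs, abs_of_nonneg hε]
    exact mul_le_mul_of_nonneg_right (h n) (norm_nonneg _)
  have h1 : ‖(op Q C hQ - op Q' C hQ') ψ‖ ≤ ‖((ε : ℂ) • ψ : L2)‖ := by
    have h2 : ‖(op Q C hQ - op Q' C hQ') ψ‖ ^ 2 ≤ ‖((ε : ℂ) • ψ : L2)‖ ^ 2 := by
      have a1 := lp.norm_rpow_eq_tsum (p := 2) (by norm_num) ((op Q C hQ - op Q' C hQ') ψ)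
      have a2 := lp.norm_rpow_eq_tsum (p := 2) (by norm_num) ((ε : ℂ) • ψ : L2)
      have b1 := (memlp_iff _).mp ((op Q C hQ - op Q' C hQ') ψ).2
      have b2 := (memlp_iff _).mp ((ε : ℂ) • ψ : L2).2
      simp only [ENNReal.toReal_ofNat, Real.rpow_ofNat] at a1 a2
      rw [a1, a2]
      apply Summable.tsum_le_tsum _ b1 b2
      intro n
      exact pow_le_pow_left₀ (norm_nonneg _) (hle n) 2
    exact le_of_sq_le_sq h2 (norm_nonneg _)
  refine h1.trans ?_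
  rw [norm_smul, Complex.norm_real, Real.norm_eq_abs, abs_of_nonneg hε]

noncomputable def dl (n : ℤ) : L2 := lp.single 2 n (1 : ℂ)

theorem dl_apply (n m : ℤ) : (dl n : ℤ → ℂ) m = if m = n then 1 else 0 := by
  rw [dl, lp.single_apply, Pi.single_apply]

theorem inner_dl (n : ℤ) (ψ : L2) : inner ℂ (dl n) ψ = ψ n := by
  rw [dl, lp.inner_single_left]
  simp

theorem op_dl (Q : ℤ → ℝ) (C : ℝ) (hQ : ∀ n, |Q n| ≤ C) (n : ℤ) :
    op Q C hQ (dl n) = dl (n + 1) + dl (n - 1) + (Q n : ℂ) • dl n := by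
  ext m
  rw [op_apply, lp.coeFn_add, lp.coeFn_add, lp.coeFn_smul]
  simp only [Pi.add_apply, Pi.smul_apply, smul_eq_mul, dl_apply]
  have e1 : (m + 1 = n) ↔ (m = n - 1) := by omega
  have e2 : (m - 1 = n) ↔ (m = n + 1) := by omega
  simp only [e1, e2]
  by_cases h : m = n
  · subst h; simp
  · simp [h]
    ring

theorem L2_tendsto_nat (ψ : L2) (p : ℤ) (hp : p ≠ 0) :
    Tendsto (fun n : ℕ => (ψ : ℤ → ℂ) (p * n)) atTop (𝓝 0) := by
  have h1 := (memlp_iff _).mp ψ.2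
  have h2 := h1.tendsto_cofinite_zero
  have h3 : Tendsto (fun n : ℕ => p * (n : ℤ)) atTop cofinite := by
    rw [← Nat.cofinite_eq_atTop]
    apply Function.Injective.tendsto_cofinite
    intro a b hab
    simpa [hp] using hab
  have h4 := h2.comp h3
  rw [tendsto_zero_iff_norm_tendsto_zero]
  have h5 : Tendsto (fun n : ℕ => Real.sqrt (‖(ψ : ℤ → ℂ) (p * n)‖ ^ 2)) atTop (𝓝 (Real.sqrt 0)) :=
    (Real.continuous_sqrt.tendsto 0).comp h4
  rw [Real.sqrt_zero] at h5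
  refine h5.congr (fun n => ?_)
  rw [Real.sqrt_sq (norm_nonneg _)]

end Pool.Agent.Helper99
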