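import Mathlib

set_option autoImplicit false
open Filter Topology

namespace Pool.Agent.Helper99

noncomputable def tt (j : ℕ) : ℝ := 2 ^ j / 2 ^ 33

noncomputable def ss (j : ℕ) : ℝ := 1 / (1 + tt j)

noncomputable def KK (j : ℕ) : ℝ := 2 * (1 + tt j) ^ 2 / (1 + 2 * tt j)

noncomputable def PP (j : ℕ) : ℝ := ∏ i ∈ Finset.range j, KK i

/-- `gg j = v j - v ∞`. -/
noncomputable def gg (j : ℕ) : ℝ := (KK j - 2 * ss j) / PP j

/-- the value of the potential at sites of valuation `j` -/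
noncomputable def ff (j : ℕ) : ℝ := gg 0 - gg j

noncomputable def dd (j : ℕ) : ℝ := ff (j + 1) - ff j

noncomputable def rr (j : ℕ) : ℝ := 6 * tt j / ((1 + tt j) * (1 + 2 * tt j)) / 4096

noncomputable def RR (k : ℕ) : ℝ := ∑ j ∈ Finset.range k, rr j

theorem tt_pos (j : ℕ) : 0 < tt j := by unfold tt; positivity

theorem tt_succ (j : ℕ) : tt (j + 1) = 2 * tt j := by unfold tt; ring

theorem KK_pos (j : ℕ) : 0 < KK j := by
  have := tt_pos j
  unfold KK; positivity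

theorem PP_pos (j : ℕ) : 0 < PP j := Finset.prod_pos (fun i _ => KK_pos i)

theorem PP_succ (j : ℕ) : PP (j + 1) = PP j * KK j := Finset.prod_range_succ _ _

theorem ss_pos (j : ℕ) : 0 < ss j := by
  have := tt_pos j
  unfold ss; positivity

theorem ss_rel (j : ℕ) : KK j * ss j = 1 + ss (j + 1) := by
  have := tt_pos j
  unfold KK ss
  rw [tt_succ]
  have h1 : (1 + 2 * tt j) ≠ 0 := by positivity
  have h2 : (1 + tt j) ≠ 0 := by positivity
  field_simp
  ring

theorem KK_ge (j : ℕ) : 1 + tt j ≤ KK j := by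
  have := tt_pos j
  unfold KK
  rw [le_div_iff₀ (by positivity)]
  nlinarith

theorem KK_le (j : ℕ) : KK j ≤ 2 * (1 + tt j) := by
  have := tt_pos j
  unfold KK
  rw [div_le_iff₀ (by positivity)]
  nlinarith

theorem ss_le (j : ℕ) : ss j ≤ 1 := by
  have := tt_pos j
  unfold ss
  rw [div_le_one (by positivity)]
  linarith

theorem gg_nonneg (j : ℕ) : 0 ≤ gg j := by
  have h0 := tt_pos j
  apply div_nonneg _ (PP_pos j).le
  unfold KK ss
  rw [sub_nonneg, mul_one_div, div_le_div_iff₀ (by positivity) (by positivity)]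
  nlinarith [mul_pos h0 h0, mul_pos (mul_pos h0 h0) h0]

/-- closed form of the product -/
theorem PP_closed (j : ℕ) :
    PP j = 2 ^ j * (1 + tt 0) * (∏ i ∈ Finset.range j, (1 + tt i)) / (1 + tt j) := by
  induction j with
  | zero =>
    have := tt_pos 0
    simp [PP]
    field_simp
  | succ j ih =>
    rw [PP_succ, ih, Finset.prod_range_succ, tt_succ]
    have := tt_pos j
    unfold KK
    field_simp
    ring

theorem dd_eq (j : ℕ) : dd j = (KK j ^ 2 - 2 - KK (j + 1)) / PP (j + 1) := by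
  have h1 := PP_pos j
  have h2 := KK_pos j
  have h3 := ss_rel j
  unfold dd ff gg
  rw [PP_succ]
  field_simp
  linear_combination (-2) * h3

theorem KK_diff (j : ℕ) : KK j ^ 2 - 2 - KK (j + 1)
    = 4 * tt j ^ 3 * (4 + 9 * tt j + 4 * tt j ^ 2) / ((1 + 2 * tt j) ^ 2 * (1 + 4 * tt j)) := by
  have := tt_pos j
  unfold KK
  rw [tt_succ]
  have e : 1 + 2 * (2 * tt j) = 1 + 4 * tt j := by ring
  rw [e]
  field_simp
  ring

theorem dd_nonneg (j : ℕ) : 0 ≤ dd j := by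
  rw [dd_eq, KK_diff]
  have := tt_pos j
  have := PP_pos (j + 1)
  positivity

theorem prod_ge_one (j : ℕ) : 1 ≤ ∏ i ∈ Finset.range j, (1 + tt i) := by
  induction j with
  | zero => simp
  | succ j ih =>
    rw [Finset.prod_range_succ]
    have := tt_pos j
    nlinarith

theorem rr_pos (j : ℕ) : 0 < rr j := by
  have := tt_pos j
  unfold rr; positivity

theorem rr_eq (j : ℕ) : rr j = 6 / 4096 * (tt (j + 1) / (1 + tt (j + 1)) - tt j / (1 + tt j)) := by
  have := tt_pos j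
  unfold rr
  rw [tt_succ]
  field_simp
  ring

theorem RR_succ (k : ℕ) : RR (k + 1) = RR k + rr k := Finset.sum_range_succ _ _

theorem RR_eq (k : ℕ) : RR k = 6 / 4096 * (tt k / (1 + tt k) - tt 0 / (1 + tt 0)) := by
  induction k with
  | zero => simp [RR]
  | succ k ih =>
    rw [RR_succ, ih, rr_eq]
    ring

theorem RR_le (k : ℕ) : RR k ≤ 6 / 4096 := by
  rw [RR_eq]
  have h0 := tt_pos 0
  have hk := tt_pos k
  have h1 : tt k / (1 + tt k) ≤ 1 := by
    rw [div_le_one (by positivity)]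
    linarith
  have h2 : 0 ≤ tt 0 / (1 + tt 0) := by positivity
  nlinarith

theorem RR_nonneg (k : ℕ) : 0 ≤ RR k := Finset.sum_nonneg (fun i _ => (rr_pos i).le)

theorem rr_le (j : ℕ) : rr j ≤ 6 / 4096 := by
  have h1 := RR_succ j
  have h2 := RR_le (j + 1)
  have h3 := RR_nonneg j
  linarith

theorem dd_le_small (j : ℕ) (hj : tt j ≤ 1) : dd j ≤ rr j ^ 2 := by
  have h0 := tt_pos j
  have hP : (2 : ℝ) ^ j ≤ PP (j + 1) := by
    rw [PP_closed, tt_succ, Finset.prod_range_succ, le_div_iff₀ (by positivity)]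
    have h1 := prod_ge_one j
    have h2 := tt_pos 0
    have h3 : (1 : ℝ) ≤ (1 + tt 0) * ∏ i ∈ Finset.range j, (1 + tt i) := by nlinarith
    have h4 : (0 : ℝ) < 2 ^ j := by positivity
    calc (2 : ℝ) ^ j * (1 + 2 * tt j) ≤ 2 ^ j * (2 * (1 + tt j)) := by
          apply mul_le_mul_of_nonneg_left _ h4.le; linarith
      _ = (2 ^ j * (2 * (1 + tt j))) * 1 := by ring
      _ ≤ (2 ^ j * (2 * (1 + tt j))) * ((1 + tt 0) * ∏ i ∈ Finset.range j, (1 + tt i)) := by
          apply mul_le_mul_of_nonneg_left h3; positivity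
      _ = _ := by ring
  have hK : KK j ^ 2 - 2 - KK (j + 1) ≤ 16 * tt j ^ 3 := by
    rw [KK_diff, div_le_iff₀ (by positivity)]
    nlinarith [pow_pos h0 3, pow_pos h0 4, pow_pos h0 5, pow_pos h0 6]
  have hK0 : 0 ≤ KK j ^ 2 - 2 - KK (j + 1) := by
    rw [KK_diff]; positivity
  have h1 : dd j ≤ 16 * tt j ^ 3 / 2 ^ j := by
    rw [dd_eq]
    apply div_le_div₀ (by positivity) hK (by positivity) hP
  have h2 : 16 * tt j ^ 3 / 2 ^ j = 16 * tt j ^ 2 / 2 ^ 33 := by
    have : tt j = 2 ^ j / 2 ^ 33 := rfl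
    rw [show 16 * tt j ^ 3 / 2 ^ j = 16 * tt j ^ 2 * tt j / 2 ^ j by ring]
    nth_rewrite 2 [this]
    field_simp
  rw [h2] at h1
  refine h1.trans ?_
  unfold rr
  rw [div_div, div_pow, div_le_div_iff₀ (by positivity) (by positivity)]
  have h5 : ((1 + tt j) * (1 + 2 * tt j)) ^ 2 ≤ 36 := by
    have : (1 + tt j) * (1 + 2 * tt j) ≤ 6 := by nlinarith
    have h6 : 0 ≤ (1 + tt j) * (1 + 2 * tt j) := by positivity
    nlinarith
  calc 16 * tt j ^ 2 * ((1 + tt j) * (1 + 2 * tt j) * 4096) ^ 2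
      = (16 * 4096 ^ 2 * tt j ^ 2) * ((1 + tt j) * (1 + 2 * tt j)) ^ 2 := by ring
    _ ≤ (16 * 4096 ^ 2 * tt j ^ 2) * 36 := by
        apply mul_le_mul_of_nonneg_left h5; positivity
    _ ≤ (6 * tt j) ^ 2 * 2 ^ 33 := by nlinarith [sq_nonneg (tt j)]

theorem dd_le_large (j : ℕ) (hj : 1 ≤ tt j) : dd j ≤ rr j ^ 2 := by
  have h0 := tt_pos j
  have hj3 : 33 ≤ j := by
    by_contra hlt
    push Not at hlt
    have : tt j < 1 := by
      unfold tt
      rw [div_lt_one (by positivity)]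
      exact pow_lt_pow_right₀ (by norm_num) hlt
    linarith
  obtain ⟨m, rfl⟩ : ∃ m, j = m + 3 := ⟨j - 3, by omega⟩
  have e1 : tt (m + 3) = 8 * tt m := by rw [tt_succ, tt_succ, tt_succ]; ring
  have e2 : tt (m + 2) = 4 * tt m := by rw [tt_succ, tt_succ]; ring
  have e3 : tt (m + 1) = 2 * tt m := tt_succ m
  have hm := tt_pos m
  have hP : (2 : ℝ) ^ (m + 3) * tt (m + 3) ^ 3 / 64 ≤ PP (m + 3 + 1) := by
    rw [PP_closed, tt_succ (m + 3), Finset.prod_range_succ, Finset.prod_range_succ,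
      Finset.prod_range_succ, Finset.prod_range_succ]
    rw [le_div_iff₀ (by positivity)]
    have h1 := prod_ge_one m
    have h2 := tt_pos 0
    have h3 : (1 : ℝ) ≤ (1 + tt 0) * ∏ i ∈ Finset.range m, (1 + tt i) := by nlinarith
    have h4 : (0 : ℝ) < 2 ^ m := by positivity
    have h5 : tt (m + 3) ^ 3 / 64 * (1 + 2 * tt (m + 3))
        ≤ 2 * ((1 + tt m) * (1 + tt (m + 1)) * (1 + tt (m + 2)) * (1 + tt (m + 3))) := by
      rw [e1, e2, e3]
      nlinarith [pow_pos hm 2, pow_pos hm 3, pow_pos hm 4]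
    calc (2 : ℝ) ^ (m + 3) * tt (m + 3) ^ 3 / 64 * (1 + 2 * tt (m + 3))
        = 2 ^ (m + 3) * (tt (m + 3) ^ 3 / 64 * (1 + 2 * tt (m + 3))) := by ring
      _ ≤ 2 ^ (m + 3) * (2 * ((1 + tt m) * (1 + tt (m + 1)) * (1 + tt (m + 2))
            * (1 + tt (m + 3)))) := by
          apply mul_le_mul_of_nonneg_left h5; positivity
      _ = (2 ^ (m + 3) * (2 * ((1 + tt m) * (1 + tt (m + 1)) * (1 + tt (m + 2))
            * (1 + tt (m + 3))))) * 1 := by ring
      _ ≤ (2 ^ (m + 3) * (2 * ((1 + tt m) * (1 + tt (m + 1)) * (1 + tt (m + 2))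
            * (1 + tt (m + 3))))) * ((1 + tt 0) * ∏ i ∈ Finset.range m, (1 + tt i)) := by
          apply mul_le_mul_of_nonneg_left h3
          have := tt_pos (m + 1)
          have := tt_pos (m + 2)
          positivity
      _ = _ := by ring
  set t := tt (m + 3) with ht
  have hK : KK (m + 3) ^ 2 - 2 - KK (m + 3 + 1) ≤ 8 * t ^ 2 := by
    rw [KK_diff, ← ht, div_le_iff₀ (by positivity)]
    have a1 : t ^ 3 * 1 ≤ t ^ 3 * t := by
      apply mul_le_mul_of_nonneg_left hj; positivity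
    have a2 : t ^ 4 * 1 ≤ t ^ 4 * t := by
      apply mul_le_mul_of_nonneg_left hj; positivity
    nlinarith [pow_pos h0 2, pow_pos h0 3, pow_pos h0 4, pow_pos h0 5]
  have h1 : dd (m + 3) ≤ 8 * t ^ 2 / ((2 : ℝ) ^ (m + 3) * t ^ 3 / 64) := by
    rw [dd_eq]
    apply div_le_div₀ (by positivity) hK (by positivity) hP
  have h2 : 8 * t ^ 2 / ((2 : ℝ) ^ (m + 3) * t ^ 3 / 64) = 512 / (t ^ 2 * 2 ^ 33) := by
    have h3 : (2 : ℝ) ^ (m + 3) = t * 2 ^ 33 := by
      rw [ht]; unfold tt; field_simp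
    rw [h3]
    field_simp
    norm_num
  rw [h2] at h1
  refine h1.trans ?_
  unfold rr
  rw [← ht, div_div, div_pow, div_le_div_iff₀ (by positivity) (by positivity)]
  have h5 : ((1 + t) * (1 + 2 * t)) ^ 2 ≤ 36 * t ^ 4 := by
    have h6 : (1 + t) * (1 + 2 * t) ≤ 6 * t ^ 2 := by nlinarith
    have h7 : 0 ≤ (1 + t) * (1 + 2 * t) := by positivity
    nlinarith [pow_pos h0 2]
  calc 512 * ((1 + t) * (1 + 2 * t) * 4096) ^ 2
      = (512 * 4096 ^ 2) * ((1 + t) * (1 + 2 * t)) ^ 2 := by ring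
    _ ≤ (512 * 4096 ^ 2) * (36 * t ^ 4) := by
        apply mul_le_mul_of_nonneg_left h5; positivity
    _ ≤ (6 * t) ^ 2 * (t ^ 2 * 2 ^ 33) := by nlinarith [pow_pos h0 4]

theorem dd_le (j : ℕ) : dd j ≤ rr j ^ 2 := by
  rcases le_total (tt j) 1 with h | h
  · exact dd_le_small j h
  · exact dd_le_large j h

theorem gg_le (j : ℕ) (hj : 2 ≤ j) : gg j ≤ 16 / 2 ^ j := by
  obtain ⟨m, rfl⟩ : ∃ m, j = m + 2 := ⟨j - 2, by omega⟩
  have hm := tt_pos m
  have e2 : tt (m + 2) = 4 * tt m := by rw [tt_succ, tt_succ]; ring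
  have e3 : tt (m + 1) = 2 * tt m := tt_succ m
  have h1 := prod_ge_one m
  have h2 := tt_pos 0
  have h3 : (1 : ℝ) ≤ (1 + tt 0) * ∏ i ∈ Finset.range m, (1 + tt i) := by nlinarith
  have hP : (2 : ℝ) ^ (m + 2) * ((1 + tt (m + 1)) * (1 + tt m)) / (1 + tt (m + 2))
      ≤ PP (m + 2) := by
    rw [PP_closed, Finset.prod_range_succ, Finset.prod_range_succ]
    apply div_le_div_of_nonneg_right _ (by rw [e2]; positivity)
    calc (2 : ℝ) ^ (m + 2) * ((1 + tt (m + 1)) * (1 + tt m))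
        = (2 : ℝ) ^ (m + 2) * ((1 + tt (m + 1)) * (1 + tt m)) * 1 := by ring
      _ ≤ (2 : ℝ) ^ (m + 2) * ((1 + tt (m + 1)) * (1 + tt m)) *
          ((1 + tt 0) * ∏ i ∈ Finset.range m, (1 + tt i)) := by
          apply mul_le_mul_of_nonneg_left h3
          rw [e3]; positivity
      _ = _ := by ring
  have hK : KK (m + 2) - 2 * ss (m + 2) ≤ 2 * (1 + tt (m + 2)) := by
    have := KK_le (m + 2)
    have := ss_pos (m + 2)
    linarith
  unfold gg
  have h5 : (KK (m + 2) - 2 * ss (m + 2)) / PP (m + 2)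
      ≤ 2 * (1 + tt (m + 2)) /
        ((2 : ℝ) ^ (m + 2) * ((1 + tt (m + 1)) * (1 + tt m)) / (1 + tt (m + 2))) := by
    apply div_le_div₀ _ hK _ hP
    · rw [e2]; positivity
    · rw [e2, e3]; positivity
  refine h5.trans ?_
  rw [e2, e3]
  rw [div_le_div_iff₀ (by positivity) (by positivity), ← sub_nonneg]
  have : 16 * ((2 : ℝ) ^ (m + 2) * ((1 + 2 * tt m) * (1 + tt m)) / (1 + 4 * tt m))
      - 2 * (1 + 4 * tt m) * 2 ^ (m + 2)
      = 2 ^ (m + 2) * (16 * ((1 + 2 * tt m) * (1 + tt m)) - 2 * (1 + 4 * tt m) ^ 2)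
        / (1 + 4 * tt m) := by
    field_simp
  rw [this]
  apply div_nonneg _ (by positivity)
  apply mul_nonneg (by positivity)
  nlinarith

theorem gg_tendsto : Tendsto gg atTop (𝓝 0) := by
  have h1 : Tendsto (fun j : ℕ => 16 * (1 / 2 : ℝ) ^ j) atTop (𝓝 (16 * 0)) :=
    (tendsto_pow_atTop_nhds_zero_of_lt_one (by norm_num) (by norm_num)).const_mul _
  rw [mul_zero] at h1
  refine squeeze_zero' (Filter.Eventually.of_forall gg_nonneg) ?_ h1
  filter_upwards [eventually_ge_atTop 2] with j hj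
  refine (gg_le j hj).trans (le_of_eq ?_)
  rw [one_div, inv_pow]
  ring

theorem gg_bound : ∃ C : ℝ, ∀ j, gg j ≤ C := by
  obtain ⟨C, hC⟩ := gg_tendsto.bddAbove_range
  exact ⟨C, fun j => hC ⟨j, rfl⟩⟩

theorem ff_zero : ff 0 = 0 := by simp [ff]

end Pool.Agent.Helper99
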