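import Mathlib
import Pool.Agent.Helper99.Seq

set_option autoImplicit false
open Filter Topology

namespace Pool.Agent.Helper99

noncomputable def pot (g : ℕ → ℝ) (ginf : ℝ) (n : ℤ) : ℝ :=
  if n = 0 then ginf else g (padicValNat 2 n.natAbs)

/-- the (half of the) eigenfunction at level `k` -/
noncomputable def bb (n : ℕ) (k : ℕ) : ℝ :=
  if n = 0 then 1 else if n = 1 then ss k else
    if n % 2 = 0 then bb (n / 2) (k + 1)
    else (bb (n / 2) (k + 1) + bb (n / 2 + 1) (k + 1)) / KK k
termination_by n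
decreasing_by all_goals omega

theorem bb_zero (k : ℕ) : bb 0 k = 1 := by
  rw [bb]; simp

theorem bb_one (k : ℕ) : bb 1 k = ss k := by
  rw [bb]; simp

theorem bb_even (m k : ℕ) : bb (2 * m) k = bb m (k + 1) := by
  rcases Nat.eq_zero_or_pos m with rfl | hm
  · rw [mul_zero, bb_zero, bb_zero]
  · rw [bb, if_neg (by omega), if_neg (by omega), if_pos (by omega)]
    congr 1
    omega

theorem bb_odd (m k : ℕ) : bb (2 * m + 1) k = (bb m (k + 1) + bb (m + 1) (k + 1)) / KK k := by
  rcases Nat.eq_zero_or_pos m with rfl | hm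
  · rw [mul_zero, zero_add, bb_zero, bb_one, bb_one, eq_div_iff (KK_pos k).ne', mul_comm, ss_rel]
  · rw [bb, if_neg (by omega), if_neg (by omega), if_neg (by omega)]
    have e1 : (2 * m + 1) / 2 = m := by omega
    rw [e1]

theorem bb_eq (n : ℕ) : ∀ k : ℕ, 1 ≤ n →
    bb (n + 1) k + bb (n - 1) k
      = (2 * ss k + gg (k + padicValNat 2 n) * PP k) * bb n k := by
  induction n using Nat.strong_induction_on with
  | _ n ih =>
    intro k hn
    have hK := KK_pos k
    have hP := PP_pos k
    rcases Nat.even_or_odd' n with ⟨m, rfl | rfl⟩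
    · -- even case
      have hm : 1 ≤ m := by omega
      have h1 := ih m (by omega) (k + 1) hm
      have e1 : padicValNat 2 (2 * m) = padicValNat 2 m + 1 := by
        rw [padicValNat.mul (by norm_num) (by omega), padicValNat_self, add_comm]
      have e2 : 2 * m - 1 = 2 * (m - 1) + 1 := by omega
      have e3 : m - 1 + 1 = m := by omega
      rw [e1, e2, bb_odd, bb_odd, bb_even, e3]
      have h2 := ss_rel k
      have h3 := PP_succ k
      rw [h3] at h1
      have e4 : k + (padicValNat 2 m + 1) = k + 1 + padicValNat 2 m := by ring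
      rw [e4]
      rw [← add_div, div_eq_iff hK.ne']
      linear_combination h1 - 2 * bb m (k + 1) * h2
    · -- odd case
      have e1 : padicValNat 2 (2 * m + 1) = 0 := by
        apply padicValNat.eq_zero_of_not_dvd
        omega
      have e2 : 2 * m + 1 + 1 = 2 * (m + 1) := by ring
      have e3 : 2 * m + 1 - 1 = 2 * m := by omega
      rw [e1, e2, e3, bb_even, bb_even, bb_odd, add_zero]
      unfold gg
      field_simp
      ring

/-- the eigenfunction -/
noncomputable def eig (n : ℤ) : ℝ := bb n.natAbs 0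

theorem eig_eq (n : ℤ) :
    eig (n + 1) + eig (n - 1) + pot ff (gg 0) n * eig n = KK 0 * eig n := by
  have h0 : gg 0 = KK 0 - 2 * ss 0 := by simp [gg, PP]
  have hP : PP 0 = 1 := by simp [PP]
  rcases lt_trichotomy n 0 with hn | rfl | hn
  · have h := bb_eq n.natAbs 0 (by omega)
    have e1 : (n + 1).natAbs = n.natAbs - 1 := by omega
    have e2 : (n - 1).natAbs = n.natAbs + 1 := by omega
    unfold eig pot
    rw [e1, e2, if_neg hn.ne]
    rw [zero_add, hP] at h
    unfold ff
    rw [h0]
    linear_combination h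
  · unfold eig pot
    simp only [zero_add, zero_sub, Int.natAbs_neg, Int.natAbs_one, Int.natAbs_zero, if_true,
      bb_zero, bb_one, h0]
    ring
  · have h := bb_eq n.natAbs 0 (by omega)
    have e1 : (n + 1).natAbs = n.natAbs + 1 := by omega
    have e2 : (n - 1).natAbs = n.natAbs - 1 := by omega
    unfold eig pot
    rw [e1, e2, if_neg hn.ne']
    rw [zero_add, hP] at h
    unfold ff
    rw [h0]
    linear_combination h

noncomputable def TT (k N : ℕ) : ℝ := ∑ n ∈ Finset.range (N + 1), bb n k ^ 2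

theorem sum_split (f : ℕ → ℝ) (N : ℕ) :
    ∑ n ∈ Finset.range (2 * N + 1), f n
      = ∑ m ∈ Finset.range (N + 1), f (2 * m) + ∑ m ∈ Finset.range N, f (2 * m + 1) := by
  induction N with
  | zero => simp
  | succ N ih =>
    have e : 2 * (N + 1) + 1 = 2 * N + 1 + 1 + 1 := by ring
    rw [e, Finset.sum_range_succ, Finset.sum_range_succ, ih,
      Finset.sum_range_succ (fun m => f (2 * m)) (N + 1),
      Finset.sum_range_succ (fun m => f (2 * m + 1)) N]
    have e2 : 2 * N + 1 + 1 = 2 * (N + 1) := by ring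
    rw [e2]
    ring

theorem TT_rec (k N : ℕ) : TT k (2 * N) ≤ (1 + 4 / KK k ^ 2) * TT (k + 1) N := by
  unfold TT
  rw [sum_split]
  have hK := KK_pos k
  have h1 : ∑ m ∈ Finset.range (N + 1), bb (2 * m) k ^ 2
      = ∑ m ∈ Finset.range (N + 1), bb m (k + 1) ^ 2 := by
    apply Finset.sum_congr rfl
    intro m _
    rw [bb_even]
  have h2 : ∑ m ∈ Finset.range N, bb (2 * m + 1) k ^ 2
      ≤ (2 / KK k ^ 2) * ∑ m ∈ Finset.range N, (bb m (k + 1) ^ 2 + bb (m + 1) (k + 1) ^ 2) := by
    rw [Finset.mul_sum]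
    apply Finset.sum_le_sum
    intro m _
    rw [bb_odd, div_pow, div_mul_eq_mul_div, div_le_div_iff_of_pos_right (by positivity)]
    nlinarith [sq_nonneg (bb m (k + 1) - bb (m + 1) (k + 1))]
  have h3 : ∑ m ∈ Finset.range N, (bb m (k + 1) ^ 2 + bb (m + 1) (k + 1) ^ 2)
      ≤ 2 * ∑ m ∈ Finset.range (N + 1), bb m (k + 1) ^ 2 := by
    rw [Finset.sum_add_distrib, two_mul]
    apply add_le_add
    · rw [Finset.sum_range_succ]
      have := sq_nonneg (bb N (k + 1))
      linarith
    · rw [Finset.sum_range_succ' _ N]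
      have := sq_nonneg (bb 0 (k + 1))
      linarith
  have h4 : 0 < 2 / KK k ^ 2 := by positivity
  rw [h1]
  calc ∑ m ∈ Finset.range (N + 1), bb m (k + 1) ^ 2 + ∑ m ∈ Finset.range N, bb (2 * m + 1) k ^ 2
      ≤ ∑ m ∈ Finset.range (N + 1), bb m (k + 1) ^ 2
        + (2 / KK k ^ 2) * (2 * ∑ m ∈ Finset.range (N + 1), bb m (k + 1) ^ 2) := by
        apply add_le_add_right
        exact h2.trans (mul_le_mul_of_nonneg_left h3 h4.le)
    _ = _ := by ring

theorem TT_pow (j : ℕ) : ∀ k : ℕ, TT k (2 ^ j)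
    ≤ (∏ i ∈ Finset.range j, (1 + 4 / KK (k + i) ^ 2)) * 2 := by
  induction j with
  | zero =>
    intro k
    simp only [pow_zero, Finset.range_zero, Finset.prod_empty, one_mul]
    unfold TT
    have e : ∑ n ∈ Finset.range (1 + 1), bb n k ^ 2 = bb 0 k ^ 2 + bb 1 k ^ 2 := by
      rw [Finset.sum_range_succ, Finset.sum_range_one]
    rw [e, bb_zero, bb_one]
    have h1 := ss_pos k
    have h2 := ss_le k
    nlinarith
  | succ j ih =>
    intro k
    have hK := KK_pos k
    rw [pow_succ, mul_comm (2 ^ j) 2]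
    refine (TT_rec k (2 ^ j)).trans ?_
    rw [Finset.prod_range_succ' _ j, add_zero]
    calc (1 + 4 / KK k ^ 2) * TT (k + 1) (2 ^ j)
        ≤ (1 + 4 / KK k ^ 2) * ((∏ i ∈ Finset.range j, (1 + 4 / KK (k + 1 + i) ^ 2)) * 2) := by
          apply mul_le_mul_of_nonneg_left (ih (k + 1))
          positivity
      _ = (∏ i ∈ Finset.range j, (1 + 4 / KK (k + (i + 1)) ^ 2)) * (1 + 4 / KK k ^ 2) * 2 := by
          have : ∀ i, k + 1 + i = k + (i + 1) := fun i => by ring
          simp_rw [this]
          ring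

theorem summable_K : Summable (fun i : ℕ => 4 / KK i ^ 2) := by
  have h1 : Summable (fun i : ℕ => (4 * (2 ^ 33) ^ 2 : ℝ) * (1 / 4 : ℝ) ^ i) :=
    (summable_geometric_of_lt_one (by norm_num) (by norm_num)).mul_left _
  refine Summable.of_nonneg_of_le (fun i => ?_) (fun i => ?_) h1
  · have := KK_pos i
    positivity
  · have h2 := KK_ge i
    have h3 := tt_pos i
    have h4 : tt i ^ 2 ≤ KK i ^ 2 := by nlinarith
    calc 4 / KK i ^ 2 ≤ 4 / tt i ^ 2 := by
          apply div_le_div_of_nonneg_left (by norm_num) (by positivity) h4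
      _ = _ := by
          unfold tt
          rw [div_pow, ← pow_mul, mul_comm i 2, pow_mul, div_pow, one_pow]
          field_simp
          norm_num

theorem TT_bdd : ∃ C : ℝ, ∀ N, TT 0 N ≤ C := by
  refine ⟨Real.exp (∑' i, 4 / KK i ^ 2) * 2, fun N => ?_⟩
  have h1 : TT 0 N ≤ TT 0 (2 ^ N) := by
    unfold TT
    apply Finset.sum_le_sum_of_subset_of_nonneg
    · apply Finset.range_subset_range.mpr
      have : N < 2 ^ N := Nat.lt_two_pow_self
      omega
    · intro i _ _
      positivity
  refine h1.trans ((TT_pow N 0).trans ?_)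
  apply mul_le_mul_of_nonneg_right _ (by norm_num)
  have h2 : ∏ i ∈ Finset.range N, (1 + 4 / KK (0 + i) ^ 2)
      ≤ ∏ i ∈ Finset.range N, Real.exp (4 / KK i ^ 2) := by
    apply Finset.prod_le_prod
    · intro i _
      have := KK_pos (0 + i)
      positivity
    · intro i _
      rw [zero_add, add_comm]
      exact Real.add_one_le_exp _
  refine h2.trans ?_
  rw [← Real.exp_sum]
  apply Real.exp_le_exp.mpr
  apply summable_K.sum_le_tsum
  intro i _
  have := KK_pos i
  positivity

theorem summable_bb : Summable (fun n : ℕ => bb n 0 ^ 2) := by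
  obtain ⟨C, hC⟩ := TT_bdd
  apply summable_of_sum_range_le (c := C) (fun n => by positivity)
  intro n
  refine le_trans ?_ (hC n)
  unfold TT
  rw [Finset.sum_range_succ]
  have : 0 ≤ bb n 0 ^ 2 := by positivity
  linarith

theorem summable_eig : Summable (fun n : ℤ => eig n ^ 2) := by
  apply Summable.of_nat_of_neg
  · simpa [eig] using summable_bb
  · simpa [eig] using summable_bb

theorem eig_zero : eig 0 = 1 := by simp [eig, bb_zero]

end Pool.Agent.Helper99
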