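import Mathlib
import Pool.Agent.Helper99.Eigen

set_option autoImplicit false
open Filter Topology

namespace Pool.Agent.Helper99

theorem exists_odd_part (n : ℤ) (hn : n ≠ 0) : ∃ (j : ℕ) (m : ℤ), n = 2 ^ j * (2 * m + 1) := by
  obtain ⟨j, b, hb, h⟩ := Nat.exists_eq_two_pow_mul_odd (n := n.natAbs) (by omega)
  obtain ⟨c, rfl⟩ := hb
  rcases Int.natAbs_eq n with h1 | h1
  · refine ⟨j, c, ?_⟩
    rw [h1, h]
    push_cast
    ring
  · refine ⟨j, -(c : ℤ) - 1, ?_⟩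
    rw [h1, h]
    push_cast
    ring

theorem pot_odd (g : ℕ → ℝ) (ginf : ℝ) (j : ℕ) (m : ℤ) :
    pot g ginf (2 ^ j * (2 * m + 1)) = g j := by
  have h1 : (2 ^ j * (2 * m + 1) : ℤ) ≠ 0 := by
    apply mul_ne_zero (by positivity)
    omega
  unfold pot
  rw [if_neg h1]
  congr 1
  rw [Int.natAbs_mul, Int.natAbs_pow]
  have h2 : (2 * m + 1).natAbs ≠ 0 := by omega
  rw [padicValNat.mul (by norm_num) h2]
  have h3 : padicValNat 2 (2 * m + 1).natAbs = 0 := by
    apply padicValNat.eq_zero_of_not_dvd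
    omega
  rw [h3, add_zero]
  simp

theorem pot_zero (g : ℕ → ℝ) (ginf : ℝ) : pot g ginf 0 = ginf := by simp [pot]

/-- the periodic approximant -/
noncomputable def Qk (k : ℕ) : ℤ → ℝ := pot (fun j => ff (min j k)) (ff k)

theorem Qk_odd (k j : ℕ) (hj : j ≤ k) (m : ℤ) : Qk k (2 ^ j * (2 * m + 1)) = ff j := by
  unfold Qk
  rw [pot_odd, min_eq_left hj]

theorem Qk_mul (k : ℕ) (m : ℤ) : Qk k (2 ^ k * m) = ff k := by
  rcases eq_or_ne m 0 with rfl | hm
  · rw [mul_zero, Qk, pot_zero]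
  · obtain ⟨j, c, rfl⟩ := exists_odd_part m hm
    rw [← mul_assoc, ← pow_add, Qk, pot_odd, min_eq_right (by omega)]

theorem Qk_periodic (k : ℕ) : Function.Periodic (Qk k) (2 ^ k) := by
  intro n
  rcases eq_or_ne n 0 with rfl | hn
  · have h1 := Qk_mul k 1
    have h2 := Qk_mul k 0
    rw [mul_one] at h1
    rw [mul_zero] at h2
    rw [zero_add, h1, h2]
  · obtain ⟨j, c, rfl⟩ := exists_odd_part n hn
    rcases lt_or_ge j k with hj | hj
    · obtain ⟨i, rfl⟩ : ∃ i, k = j + 1 + i := ⟨k - (j + 1), by omega⟩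
      have e : (2 : ℤ) ^ j * (2 * c + 1) + 2 ^ (j + 1 + i) = 2 ^ j * (2 * (c + 2 ^ i) + 1) := by
        ring
      rw [e, Qk_odd _ _ (by omega), Qk_odd _ _ (by omega)]
    · obtain ⟨i, rfl⟩ : ∃ i, j = k + i := ⟨j - k, by omega⟩
      have e : (2 : ℤ) ^ (k + i) * (2 * c + 1) + 2 ^ k = 2 ^ k * (2 ^ i * (2 * c + 1) + 1) := by
        ring
      have e2 : (2 : ℤ) ^ (k + i) * (2 * c + 1) = 2 ^ k * (2 ^ i * (2 * c + 1)) := by
        ring
      rw [e, e2, Qk_mul, Qk_mul]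

noncomputable def VV : ℤ → ℝ := pot ff (gg 0)

theorem VV_sub_Qk (ε : ℝ) (hε : 0 < ε) :
    ∃ N : ℕ, ∀ k, N ≤ k → ∀ n : ℤ, |VV n - Qk k n| < ε := by
  have h1 := gg_tendsto
  rw [Metric.tendsto_atTop] at h1
  obtain ⟨N, hN⟩ := h1 (ε / 2) (by positivity)
  have hN' : ∀ j, N ≤ j → gg j < ε / 2 := by
    intro j hj
    have := hN j hj
    rw [Real.dist_eq, sub_zero, abs_of_nonneg (gg_nonneg j)] at this
    exact this
  refine ⟨N, fun k hk n => ?_⟩
  rcases eq_or_ne n 0 with rfl | hn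
  · rw [VV, Qk, pot_zero, pot_zero, ff]
    have h2 := hN' k hk
    have h3 := gg_nonneg k
    rw [abs_lt]
    constructor <;> linarith
  · obtain ⟨j, c, rfl⟩ := exists_odd_part n hn
    rw [VV, Qk, pot_odd, pot_odd]
    rcases le_total j k with h | h
    · rw [min_eq_left h, sub_self, abs_zero]
      exact hε
    · rw [min_eq_right h]
      have h2 := hN' k hk
      have h3 := gg_nonneg k
      have h4 := hN' j (hk.trans h)
      have h5 := gg_nonneg j
      unfold ff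
      rw [abs_lt]
      constructor <;> linarith

theorem pot_bdd (g : ℕ → ℝ) (ginf C : ℝ) (h1 : ∀ j, |g j| ≤ C) (h2 : |ginf| ≤ C) (n : ℤ) :
    |pot g ginf n| ≤ C := by
  unfold pot
  split_ifs
  · exact h2
  · exact h1 _

theorem ff_bdd : ∃ C : ℝ, ∀ j, |ff j| ≤ C := by
  obtain ⟨C, hC⟩ := gg_bound
  refine ⟨2 * C, fun j => ?_⟩
  have h1 := gg_nonneg 0
  have h2 := gg_nonneg j
  have h3 := hC 0
  have h4 := hC j
  unfold ff
  rw [abs_le]
  constructor <;> linarith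

theorem VQ_bdd : ∃ C : ℝ, (∀ n, |VV n| ≤ C) ∧ ∀ k n, |Qk k n| ≤ C := by
  obtain ⟨C, hC⟩ := ff_bdd
  refine ⟨max C (gg 0), fun n => ?_, fun k n => ?_⟩
  · apply pot_bdd
    · intro j
      exact (hC j).trans (le_max_left _ _)
    · rw [abs_of_nonneg (gg_nonneg 0)]
      exact le_max_right _ _
  · apply pot_bdd
    · intro j
      exact (hC _).trans (le_max_left _ _)
    · exact (hC _).trans (le_max_left _ _)

end Pool.Agent.Helper99
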