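import Mathlib
import Pool.Agent.Helper99.Oper
import Pool.Agent.Helper99.Potl
import Pool.Agent.Helper99.Lattice

set_option autoImplicit false
open MeasureTheory Filter Topology Polynomial
open scoped InnerProductSpace

namespace Pool.Agent.Helper99

/-- `(X_k, P_k)` -/
noncomputable def XP : ℕ → ℝ[X] × ℝ[X]
  | 0 => (X, 1)
  | k + 1 => ((XP k).1 ^ 2 - 2 - C (dd k) * ((XP k).1 * (XP k).2), (XP k).1 * (XP k).2)

noncomputable def Xp (k : ℕ) : ℝ[X] := (XP k).1
noncomputable def Pp (k : ℕ) : ℝ[X] := (XP k).2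

theorem Xp_zero : Xp 0 = X := rfl
theorem Pp_zero : Pp 0 = 1 := rfl
theorem Xp_succ (k : ℕ) : Xp (k + 1) = Xp k ^ 2 - 2 - C (dd k) * (Xp k * Pp k) := rfl
theorem Pp_succ (k : ℕ) : Pp (k + 1) = Xp k * Pp k := rfl

/-- decimation at the level of basis vectors -/
theorem decim_dl (Q : ℤ → ℝ) (c : ℝ) (hQ : ∀ n, |Q n| ≤ c) (N : ℕ)
    (hodd : ∀ j, j < N → ∀ m : ℤ, Q (2 ^ j * (2 * m + 1)) = ff j) :
    ∀ k, k ≤ N → ∀ m : ℤ,
      (aeval (op Q c hQ) (Xp k + C (ff k - Q (2 ^ k * m)) * Pp k)) (dl (2 ^ k * m))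
        = dl (2 ^ k * (m + 1)) + dl (2 ^ k * (m - 1)) := by
  intro k
  induction k with
  | zero =>
    intro _ m
    simp only [pow_zero, one_mul, Xp_zero, Pp_zero, mul_one, map_add, aeval_X, aeval_C,
      ff_zero, zero_sub]
    rw [add_apply, op_dl]
    have : (algebraMap ℝ (L2 →L[ℂ] L2)) (-Q m) (dl m) = ((-Q m : ℝ) : ℂ) • dl m := by
      rw [Algebra.algebraMap_eq_smul_one]
      simp
      rfl
    rw [this]
    push_cast
    rw [neg_smul]
    abel
  | succ k ih =>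
    intro hk m
    have ih' := ih (by omega)
    set A := op Q c hQ with hA
    have e0 : (2 : ℤ) ^ (k + 1) * m = 2 ^ k * (2 * m) := by ring
    have key : Xp (k + 1) + C (ff (k + 1) - Q (2 ^ (k + 1) * m)) * Pp (k + 1)
        = Xp k * (Xp k + C (ff k - Q (2 ^ k * (2 * m))) * Pp k) - 2 := by
      rw [Xp_succ, Pp_succ, e0]
      have : dd k = ff (k + 1) - ff k := rfl
      rw [this]
      simp only [map_sub]
      ring
    have hX : ∀ m' : ℤ, (aeval A (Xp k)) (dl (2 ^ k * (2 * m' + 1)))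
        = dl (2 ^ k * (2 * m' + 1 + 1)) + dl (2 ^ k * (2 * m' + 1 - 1)) := by
      intro m'
      have h := ih' (2 * m' + 1)
      rw [hodd k (by omega) m', sub_self, map_zero, zero_mul, add_zero] at h
      exact h
    have hmul : ∀ (a b : L2 →L[ℂ] L2) (x : L2), (a * b) x = a (b x) := fun _ _ _ => rfl
    rw [key, map_sub, map_mul, sub_apply, hmul, e0, ih' (2 * m), map_add]
    have e1 : (2 * m - 1 : ℤ) = 2 * (m - 1) + 1 := by ring
    rw [hX m, e1, hX (m - 1)]
    have e2 : (aeval A (2 : ℝ[X])) (dl (2 ^ k * (2 * m))) = dl (2 ^ k * (2 * m))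
        + dl (2 ^ k * (2 * m)) := by
      rw [map_ofNat]
      rw [show (2 : L2 →L[ℂ] L2) = 1 + 1 by norm_num]
      rfl
    rw [e2]
    have e3 : (2 : ℤ) ^ k * (2 * m + 1 + 1) = 2 ^ (k + 1) * (m + 1) := by ring
    have e4 : (2 : ℤ) ^ k * (2 * m + 1 - 1) = 2 ^ k * (2 * m) := by ring
    have e5 : (2 : ℤ) ^ k * (2 * (m - 1) + 1 + 1) = 2 ^ k * (2 * m) := by ring
    have e6 : (2 : ℤ) ^ k * (2 * (m - 1) + 1 - 1) = 2 ^ (k + 1) * (m - 1) := by ring
    rw [e3, e4, e5, e6]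
    abel

/-- decimation of the resolvent equation -/
theorem decim_res (Q : ℤ → ℝ) (N : ℕ)
    (hodd : ∀ j, j < N → ∀ m : ℤ, Q (2 ^ j * (2 * m + 1)) = ff j) (z : ℂ) (u : ℤ → ℂ)
    (hu : ∀ n : ℤ, (z - Q n) * u n = u (n + 1) + u (n - 1) + (if n = 0 then 1 else 0)) :
    ∀ k, k ≤ N → ∀ m : ℤ,
      (aeval z (Xp k + C (ff k - Q (2 ^ k * m)) * Pp k)) * u (2 ^ k * m)
        = u (2 ^ k * (m + 1)) + u (2 ^ k * (m - 1)) + (if m = 0 then aeval z (Pp k) else 0) := by
  intro k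
  induction k with
  | zero =>
    intro _ m
    have h := hu m
    simp only [pow_zero, one_mul, Xp_zero, Pp_zero, mul_one, map_add, aeval_X, aeval_C,
      ff_zero, zero_sub, map_one]
    have e : (algebraMap ℝ ℂ) (-Q m) = -(Q m : ℂ) := by simp
    rw [← h, e]
    ring
  | succ k ih =>
    intro hk m
    have ih' := ih (by omega)
    have e0 : (2 : ℤ) ^ (k + 1) * m = 2 ^ k * (2 * m) := by ring
    have key : Xp (k + 1) + C (ff (k + 1) - Q (2 ^ (k + 1) * m)) * Pp (k + 1)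
        = Xp k * (Xp k + C (ff k - Q (2 ^ k * (2 * m))) * Pp k) - 2 := by
      rw [Xp_succ, Pp_succ, e0]
      have : dd k = ff (k + 1) - ff k := rfl
      rw [this]
      simp only [map_sub]
      ring
    have hX : ∀ m' : ℤ, (aeval z (Xp k)) * u (2 ^ k * (2 * m' + 1))
        = u (2 ^ k * (2 * m' + 1 + 1)) + u (2 ^ k * (2 * m' + 1 - 1)) := by
      intro m'
      have h := ih' (2 * m' + 1)
      rw [hodd k (by omega) m', sub_self, map_zero, zero_mul, add_zero] at h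
      rw [if_neg (by omega), add_zero] at h
      exact h
    have h1 := ih' (2 * m)
    have h2 := hX m
    have h3 := hX (m - 1)
    rw [key, e0, map_sub, map_mul, map_ofNat]
    have e1 : (2 * m - 1 : ℤ) = 2 * (m - 1) + 1 := by ring
    rw [e1] at h1
    have e3 : (2 : ℤ) ^ k * (2 * m + 1 + 1) = 2 ^ (k + 1) * (m + 1) := by ring
    have e4 : (2 : ℤ) ^ k * (2 * m + 1 - 1) = 2 ^ k * (2 * m) := by ring
    have e5 : (2 : ℤ) ^ k * (2 * (m - 1) + 1 + 1) = 2 ^ k * (2 * m) := by ring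
    have e6 : (2 : ℤ) ^ k * (2 * (m - 1) + 1 - 1) = 2 ^ (k + 1) * (m - 1) := by ring
    rw [e3, e4] at h2
    rw [e5, e6] at h3
    rw [Pp_succ, map_mul]
    have e7 : (if 2 * m = 0 then (aeval z) (Pp k) else 0)
        = (if m = 0 then (aeval z) (Pp k) else 0) := by
      congr 1
      simp
    rw [e7] at h1
    have e8 : (if m = 0 then (aeval z) (Xp k) * (aeval z) (Pp k) else 0)
        = (aeval z) (Xp k) * (if m = 0 then (aeval z) (Pp k) else 0) := by
      split_ifs <;> simp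
    rw [e8]
    linear_combination (aeval z (Xp k)) * h1 + h2 + h3

end Pool.Agent.Helper99
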