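import Mathlib

set_option autoImplicit false
open MeasureTheory Filter Topology

namespace Pool.Agent.Helper99

theorem lintegral_inv_one_add_sq :
    ∫⁻ s : ℝ, ENNReal.ofReal ((1 + s ^ 2)⁻¹) = ENNReal.ofReal Real.pi := by
  rw [← integral_univ_inv_one_add_sq, ofReal_integral_eq_lintegral_ofReal]
  · exact integrable_inv_one_add_sq
  · exact Filter.Eventually.of_forall (fun x => by positivity)

/-- change of variables for the inner integral -/
theorem inner_subst (φ : ℝ → ℝ) (hφ : Continuous φ) (ε : ℝ) (hε : 0 < ε)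
    (t : ℝ) :
    ∫⁻ a : ℝ, ENNReal.ofReal (φ a * (ε / ((t - a) ^ 2 + ε ^ 2)))
      = ∫⁻ s : ℝ, ENNReal.ofReal (φ (t + ε * s) * (1 + s ^ 2)⁻¹) := by
  have h1 : ∀ s : ℝ, ENNReal.ofReal (φ (t + ε * s) * (1 + s ^ 2)⁻¹)
      = ENNReal.ofReal |ε| *
        ENNReal.ofReal (φ (t + ε * s) * (ε / ((t - (t + ε * s)) ^ 2 + ε ^ 2))) := by
    intro s
    rw [abs_of_pos hε, ← ENNReal.ofReal_mul hε.le]
    congr 1
    have h2 : (t - (t + ε * s)) ^ 2 + ε ^ 2 = ε ^ 2 * (1 + s ^ 2) := by ring
    rw [h2]
    have h3 : (1 + s ^ 2) ≠ 0 := by positivity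
    field_simp
  simp_rw [h1]
  have hmeas : Measurable (fun a : ℝ => ENNReal.ofReal (φ a * (ε / ((t - a) ^ 2 + ε ^ 2)))) := by
    apply ENNReal.measurable_ofReal.comp
    apply Continuous.measurable
    apply hφ.mul
    apply Continuous.div continuous_const (by fun_prop)
    intro x
    positivity
  rw [lintegral_const_mul' _ _ ENNReal.ofReal_ne_top]
  have h4 : ∫⁻ s : ℝ, ENNReal.ofReal (φ (t + ε * s) * (ε / ((t - (t + ε * s)) ^ 2 + ε ^ 2)))
      = ∫⁻ s : ℝ, (fun a : ℝ => ENNReal.ofReal (φ (t + a) * (ε / ((t - (t + a)) ^ 2 + ε ^ 2))))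
          (ε * s) := rfl
  rw [h4]
  have hF : Measurable (fun a : ℝ =>
      ENNReal.ofReal (φ (t + a) * (ε / ((t - (t + a)) ^ 2 + ε ^ 2)))) :=
    hmeas.comp (measurable_const_add t)
  rw [← lintegral_map hF (measurable_const_mul ε), ← smul_eq_mul, ← lintegral_smul_measure,
    Real.smul_map_volume_mul_left hε.ne']
  exact (lintegral_add_left_eq_self
    (fun a : ℝ => ENNReal.ofReal (φ a * (ε / ((t - a) ^ 2 + ε ^ 2)))) t).symm

/-- Fatou type comparison: the boundary density of the Poisson integral is dominated by the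
measure. -/
theorem density_le (μ : Measure ℝ) [IsFiniteMeasure μ] (φ : ℝ → ℝ) (hφ : Continuous φ)
    (hφ0 : ∀ x, 0 ≤ φ x) (M : ℝ) (hφM : ∀ x, φ x ≤ M) (S : Set ℝ) (hS : MeasurableSet S)
    (h : ℝ → ℝ)
    (hlim : ∀ a ∈ S, Tendsto (fun ε : ℝ => ∫ t, ε / ((t - a) ^ 2 + ε ^ 2) ∂μ) (𝓝[>] 0) (𝓝 (h a))) :
    ∫⁻ a in S, ENNReal.ofReal (φ a * h a)
      ≤ ENNReal.ofReal Real.pi * ∫⁻ t, ENNReal.ofReal (φ t) ∂μ := by
  set e : ℕ → ℝ := fun n => 1 / ((n : ℝ) + 1) with he
  have hepos : ∀ n, 0 < e n := fun n => by positivity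
  have helim : Tendsto e atTop (𝓝 0) := tendsto_one_div_add_atTop_nhds_zero_nat
  have helim' : Tendsto e atTop (𝓝[>] 0) := by
    rw [tendsto_nhdsWithin_iff]
    exact ⟨helim, Filter.Eventually.of_forall hepos⟩
  -- kernel integrability
  have hker : ∀ (ε a : ℝ), 0 < ε → Integrable (fun t : ℝ => ε / ((t - a) ^ 2 + ε ^ 2)) μ := by
    intro ε a hε
    apply Integrable.mono' (integrable_const (1 / ε))
    · apply Continuous.aestronglyMeasurable
      apply Continuous.div continuous_const (by fun_prop)
      intro x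
      positivity
    · refine Filter.Eventually.of_forall (fun t => ?_)
      rw [Real.norm_eq_abs, abs_of_nonneg (by positivity), div_le_div_iff₀ (by positivity) hε]
      nlinarith [sq_nonneg (t - a)]
  -- Step 1 : Fatou
  have step1 : ∫⁻ a in S, ENNReal.ofReal (φ a * h a)
      ≤ liminf (fun n => ∫⁻ a in S, ENNReal.ofReal
          (φ a * ∫ t, e n / ((t - a) ^ 2 + (e n) ^ 2) ∂μ)) atTop := by
    have hmeasn : ∀ n, Measurable (fun a : ℝ => ENNReal.ofReal
          (φ a * ∫ t, e n / ((t - a) ^ 2 + (e n) ^ 2) ∂μ)) := by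
      intro n
      apply ENNReal.measurable_ofReal.comp
      apply hφ.measurable.mul
      apply StronglyMeasurable.measurable
      apply MeasureTheory.StronglyMeasurable.integral_prod_right
        (f := fun (a t : ℝ) => e n / ((t - a) ^ 2 + (e n) ^ 2))
      apply Continuous.stronglyMeasurable
      apply Continuous.div continuous_const (by fun_prop)
      rintro ⟨x, y⟩
      have := hepos n
      simp only
      positivity
    calc ∫⁻ a in S, ENNReal.ofReal (φ a * h a)
        = ∫⁻ a in S, liminf (fun n => ENNReal.ofReal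
          (φ a * ∫ t, e n / ((t - a) ^ 2 + (e n) ^ 2) ∂μ)) atTop := by
          apply setLIntegral_congr_fun hS
          intro a ha
          have h1 := (((hlim a ha).comp helim').const_mul (φ a))
          have h2 := (ENNReal.continuous_ofReal.tendsto _).comp h1
          exact h2.liminf_eq.symm
      _ ≤ _ := lintegral_liminf_le hmeasn
  -- Step 2 : bound each term
  have step2 : ∀ n, ∫⁻ a in S, ENNReal.ofReal
          (φ a * ∫ t, e n / ((t - a) ^ 2 + (e n) ^ 2) ∂μ)
      ≤ ∫⁻ t, (∫⁻ s : ℝ, ENNReal.ofReal (φ (t + e n * s) * (1 + s ^ 2)⁻¹)) ∂μ := by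
    intro n
    calc ∫⁻ a in S, ENNReal.ofReal (φ a * ∫ t, e n / ((t - a) ^ 2 + (e n) ^ 2) ∂μ)
        ≤ ∫⁻ a, ENNReal.ofReal (φ a * ∫ t, e n / ((t - a) ^ 2 + (e n) ^ 2) ∂μ) :=
          setLIntegral_le_lintegral _ _
      _ = ∫⁻ a : ℝ, (∫⁻ t, ENNReal.ofReal (φ a * (e n / ((t - a) ^ 2 + (e n) ^ 2))) ∂μ) := by
          apply lintegral_congr
          intro a
          rw [← integral_const_mul, ofReal_integral_eq_lintegral_ofReal]
          · exact (hker (e n) a (hepos n)).const_mul _
          · refine Filter.Eventually.of_forall (fun t => ?_)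
            have := hepos n
            have := hφ0 a
            simp only [Pi.zero_apply]
            positivity
      _ = ∫⁻ t, (∫⁻ a : ℝ, ENNReal.ofReal (φ a * (e n / ((t - a) ^ 2 + (e n) ^ 2)))) ∂μ := by
          apply lintegral_lintegral_swap
          apply Measurable.aemeasurable
          apply ENNReal.measurable_ofReal.comp
          apply Continuous.measurable
          apply Continuous.mul (hφ.comp continuous_fst)
          apply Continuous.div continuous_const (by fun_prop)
          rintro ⟨x, y⟩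
          have := hepos n
          simp only
          positivity
      _ = _ := by
          apply lintegral_congr
          intro t
          exact inner_subst φ hφ (e n) (hepos n) t
  -- Step 3 : the limit
  have step3 : Tendsto (fun n => ∫⁻ t, (∫⁻ s : ℝ, ENNReal.ofReal
      (φ (t + e n * s) * (1 + s ^ 2)⁻¹)) ∂μ) atTop
      (𝓝 (∫⁻ t, (∫⁻ s : ℝ, ENNReal.ofReal (φ t * (1 + s ^ 2)⁻¹)) ∂μ)) := by
    have hM0 : 0 ≤ M := (hφ0 0).trans (hφM 0)
    apply tendsto_lintegral_of_dominated_convergence
      (fun _ => ENNReal.ofReal M * ENNReal.ofReal Real.pi)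
    · intro n
      apply Measurable.lintegral_prod_right
        (f := fun (p q : ℝ) => ENNReal.ofReal (φ (p + e n * q) * (1 + q ^ 2)⁻¹))
      apply ENNReal.measurable_ofReal.comp
      apply Continuous.measurable
      apply Continuous.mul (hφ.comp (by fun_prop))
      apply Continuous.inv₀ (by fun_prop)
      rintro ⟨x, y⟩
      positivity
    · intro n
      refine Filter.Eventually.of_forall (fun t => ?_)
      calc ∫⁻ s : ℝ, ENNReal.ofReal (φ (t + e n * s) * (1 + s ^ 2)⁻¹)
          ≤ ∫⁻ s : ℝ, ENNReal.ofReal M * ENNReal.ofReal ((1 + s ^ 2)⁻¹) := by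
            apply lintegral_mono
            intro s
            simp only
            rw [← ENNReal.ofReal_mul hM0]
            apply ENNReal.ofReal_le_ofReal
            apply mul_le_mul_of_nonneg_right (hφM _) (by positivity)
        _ = ENNReal.ofReal M * ENNReal.ofReal Real.pi := by
            rw [lintegral_const_mul' _ _ ENNReal.ofReal_ne_top, lintegral_inv_one_add_sq]
    · rw [lintegral_const]
      exact ENNReal.mul_ne_top (ENNReal.mul_ne_top ENNReal.ofReal_ne_top ENNReal.ofReal_ne_top)
        (measure_ne_top _ _)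
    · refine Filter.Eventually.of_forall (fun t => ?_)
      apply tendsto_lintegral_of_dominated_convergence
        (fun s => ENNReal.ofReal M * ENNReal.ofReal ((1 + s ^ 2)⁻¹))
      · intro n
        apply ENNReal.measurable_ofReal.comp
        apply Continuous.measurable
        apply Continuous.mul (hφ.comp (by fun_prop))
        apply Continuous.inv₀ (by fun_prop)
        intro y
        positivity
      · intro n
        refine Filter.Eventually.of_forall (fun s => ?_)
        simp only
        rw [← ENNReal.ofReal_mul hM0]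
        apply ENNReal.ofReal_le_ofReal
        apply mul_le_mul_of_nonneg_right (hφM _) (by positivity)
      · rw [lintegral_const_mul' _ _ ENNReal.ofReal_ne_top, lintegral_inv_one_add_sq]
        exact ENNReal.mul_ne_top ENNReal.ofReal_ne_top ENNReal.ofReal_ne_top
      · refine Filter.Eventually.of_forall (fun s => ?_)
        apply (ENNReal.continuous_ofReal.tendsto _).comp
        apply Tendsto.mul_const
        apply (hφ.tendsto t).comp
        have : Tendsto (fun n => t + e n * s) atTop (𝓝 (t + 0 * s)) :=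
          (helim.mul_const s).const_add t
        simpa using this
  have step4 : ∫⁻ t, (∫⁻ s : ℝ, ENNReal.ofReal (φ t * (1 + s ^ 2)⁻¹)) ∂μ
      = ENNReal.ofReal Real.pi * ∫⁻ t, ENNReal.ofReal (φ t) ∂μ := by
    rw [← lintegral_const_mul' _ _ ENNReal.ofReal_ne_top]
    apply lintegral_congr
    intro t
    rw [mul_comm, ← lintegral_inv_one_add_sq, ← lintegral_const_mul' _ _ ENNReal.ofReal_ne_top]
    apply lintegral_congr
    intro s
    rw [ENNReal.ofReal_mul (hφ0 t)]
  calc ∫⁻ a in S, ENNReal.ofReal (φ a * h a) ≤ _ := step1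
    _ ≤ liminf (fun n => ∫⁻ t, (∫⁻ s : ℝ, ENNReal.ofReal
      (φ (t + e n * s) * (1 + s ^ 2)⁻¹)) ∂μ) atTop :=
        liminf_le_liminf (Filter.Eventually.of_forall step2)
    _ = _ := step3.liminf_eq
    _ = _ := step4

end Pool.Agent.Helper99
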