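import Mathlib

set_option autoImplicit false
open MeasureTheory Filter Topology Polynomial
open scoped InnerProductSpace

namespace Pool.Agent.Helper99

variable {H : Type*} [NormedAddCommGroup H] [InnerProductSpace ℂ H] [CompleteSpace H]

/-- the quadratic form of a function of an operator -/
noncomputable def sm (A : H →L[ℂ] H) (φ : H) (f : ℝ → ℝ) : ℝ := (inner ℂ φ (cfc f A φ)).re

theorem exists_specMeasure (A : H →L[ℂ] H) (hA : IsSelfAdjoint A) (φ : H) :
    ∃ μ : Measure ℝ, IsFiniteMeasure μ ∧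
      ∀ f : ℝ → ℝ, Continuous f → Integrable f μ ∧ ∫ x, f x ∂μ = sm A φ f := by
  classical
  have : CompactSpace (spectrum ℝ A) :=
    isCompact_iff_compactSpace.mp (ContinuousFunctionalCalculus.isCompact_spectrum A)
  let L : CompactlySupportedContinuousMap (spectrum ℝ A) ℝ →ₗ[ℝ] ℝ :=
    { toFun := fun f => (inner ℂ φ (cfcHom hA (f : C(spectrum ℝ A, ℝ)) φ)).re
      map_add' := by
        intro f g
        have : ((f + g : CompactlySupportedContinuousMap (spectrum ℝ A) ℝ) :
            C(spectrum ℝ A, ℝ)) = (f : C(spectrum ℝ A, ℝ)) + (g : C(spectrum ℝ A, ℝ)) := by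
          ext x; rfl
        rw [this, map_add, add_apply, inner_add_right, Complex.add_re]
      map_smul' := by
        intro c f
        have : ((c • f : CompactlySupportedContinuousMap (spectrum ℝ A) ℝ) :
            C(spectrum ℝ A, ℝ)) = c • (f : C(spectrum ℝ A, ℝ)) := by
          ext x; rfl
        rw [this, map_smul]
        have h2 : (c • (cfcHom hA (f : C(spectrum ℝ A, ℝ)))) φ
            = (c : ℂ) • (cfcHom hA (f : C(spectrum ℝ A, ℝ)) φ) := by
          simp
        rw [h2, inner_smul_right]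
        simp }
  have hpos : ∀ f : CompactlySupportedContinuousMap (spectrum ℝ A) ℝ, 0 ≤ f → 0 ≤ L f := by
    intro f hf
    have h0 : (0 : C(spectrum ℝ A, ℝ)) ≤ (f : C(spectrum ℝ A, ℝ)) := by
      intro x
      exact hf x
    have h1 : 0 ≤ cfcHom hA (f : C(spectrum ℝ A, ℝ)) := by
      rw [cfcHom_nonneg_iff]
      exact h0
    have h2 := (ContinuousLinearMap.nonneg_iff_isPositive _).mp h1
    have h3 := h2.inner_nonneg_right φ
    exact (Complex.le_def.mp h3).1
  let Λ := PositiveLinearMap.mk₀ L hpos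
  let ν := RealRMK.rieszMeasure Λ
  have hν : IsFiniteMeasure ν := inferInstance
  refine ⟨ν.map Subtype.val, inferInstance, ?_⟩
  intro f hf
  let g : CompactlySupportedContinuousMap (spectrum ℝ A) ℝ :=
    ⟨⟨fun x => f x, hf.comp continuous_subtype_val⟩, HasCompactSupport.of_compactSpace _⟩
  have hint : Integrable (fun x : spectrum ℝ A => f x) ν :=
    (hf.comp continuous_subtype_val).integrable_of_hasCompactSupport
      (HasCompactSupport.of_compactSpace _)
  refine ⟨?_, ?_⟩
  · rw [integrable_map_measure hf.aestronglyMeasurable measurable_subtype_coe.aemeasurable]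
    exact hint
  · rw [integral_map measurable_subtype_coe.aemeasurable hf.aestronglyMeasurable]
    have h1 : ∫ x, g x ∂ν = Λ g := RealRMK.integral_rieszMeasure Λ g
    have h2 : ∫ x : spectrum ℝ A, f x ∂ν = ∫ x, g x ∂ν := rfl
    rw [h2, h1]
    have h3 : Λ g = (inner ℂ φ (cfcHom hA (g : C(spectrum ℝ A, ℝ)) φ)).re := rfl
    rw [h3, sm]
    rw [cfc_apply f A hA hf.continuousOn]
    rfl

theorem sm_poly (A : H →L[ℂ] H) (hA : IsSelfAdjoint A) (φ : H) (p : ℝ[X]) :
    sm A φ (fun t => p.eval t) = (inner ℂ φ (aeval A p φ)).re := by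
  rw [sm, cfc_polynomial _ A hA]

theorem sm_comp (A : H →L[ℂ] H) (hA : IsSelfAdjoint A) (φ : H) (p : ℝ[X]) (f : ℝ → ℝ)
    (hf : Continuous f) :
    sm (aeval A p) φ f = sm A φ (fun t => f (p.eval t)) := by
  rw [sm, sm, ← cfc_polynomial _ A hA, ← cfc_comp f _ A hA hf.continuousOn
    p.continuous.continuousOn]
  rfl

theorem aeval_selfAdjoint (A : H →L[ℂ] H) (hA : IsSelfAdjoint A) (p : ℝ[X]) :
    IsSelfAdjoint (aeval A p) := by
  rw [← cfc_polynomial _ A hA]
  exact cfc_predicate _ A

theorem sm_tendsto (B : ℕ → H →L[ℂ] H) (A : H →L[ℂ] H) (hB : ∀ k, IsSelfAdjoint (B k))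
    (hA : IsSelfAdjoint A) (hlim : Tendsto B atTop (𝓝 A)) (φ : H) (f : ℝ → ℝ)
    (hf : Continuous f) : Tendsto (fun k => sm (B k) φ f) atTop (𝓝 (sm A φ f)) := by
  rcases subsingleton_or_nontrivial H with hs | hn
  · have : ∀ x y : H, x = y := fun x y => Subsingleton.elim x y
    have h0 : ∀ T : H →L[ℂ] H, sm T φ f = 0 := by
      intro T
      rw [sm, this φ 0, inner_zero_left]
      rfl
    simp only [h0]
    exact tendsto_const_nhds
  · have hn2 : Nontrivial (H →L[ℂ] H) := inferInstance
    obtain ⟨R, hR⟩ := hlim.norm.bddAbove_range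
    have hBR : ∀ k, ‖B k‖ ≤ R := fun k => hR ⟨k, rfl⟩
    have hAR : ‖A‖ ≤ R := le_of_tendsto hlim.norm (Filter.Eventually.of_forall hBR)
    have hsp : ∀ T : H →L[ℂ] H, ‖T‖ ≤ R → spectrum ℝ T ⊆ Metric.closedBall (0 : ℝ) R := by
      intro T hT
      refine (spectrum.subset_closedBall_norm T).trans ?_
      exact Metric.closedBall_subset_closedBall hT
    have h1 := Filter.Tendsto.cfc (isCompact_closedBall (0 : ℝ) R) f hlim
      (Filter.Eventually.of_forall (fun k => hsp (B k) (hBR k)))
      (Filter.Eventually.of_forall hB) (hsp A hAR) hA hf.continuousOn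
    have h2 : Continuous (fun T : H →L[ℂ] H => (inner ℂ φ (T φ)).re) := by fun_prop
    exact (h2.tendsto _).comp h1

end Pool.Agent.Helper99
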