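import Mathlib
import Pool.Agent.Helper99.SpecMeasure

set_option autoImplicit false
open MeasureTheory Filter Topology Polynomial
open scoped InnerProductSpace

namespace Pool.Agent.Helper99

variable {H : Type*} [NormedAddCommGroup H] [InnerProductSpace ℂ H] [CompleteSpace H]

theorem inner_selfAdjoint_im (B : H →L[ℂ] H) (hB : IsSelfAdjoint B) (φ : H) :
    (inner ℂ φ (B φ)).im = 0 := by
  have h := (ContinuousLinearMap.isSelfAdjoint_iff_isSymmetric.mp hB) φ φ
  have h2 : (starRingEnd ℂ) (inner ℂ φ (B φ)) = inner ℂ φ (B φ) := by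
    rw [inner_conj_symm]
    exact h
  exact Complex.conj_eq_iff_im.mp h2

theorem exists_res (A : H →L[ℂ] H) (hA : IsSelfAdjoint A) (φ : H) (a ε : ℝ) (hε : 0 < ε) :
    ∃ u : H, ((a : ℂ) + ε * Complex.I) • u - A u = φ ∧
      (inner ℂ φ u).im = - (ε * sm A φ (fun t : ℝ => 1 / ((t - a) ^ 2 + ε ^ 2))) := by
  rw [sm]
  set r : ℝ → ℝ := fun t : ℝ => 1 / ((t - a) ^ 2 + ε ^ 2) with hr
  have hpos : ∀ t : ℝ, (t - a) ^ 2 + ε ^ 2 ≠ 0 := fun t => by positivity
  have hrc : Continuous r := by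
    apply Continuous.div continuous_const (by fun_prop) hpos
  set B := cfc r A with hBdef
  have hB : IsSelfAdjoint B := cfc_predicate r A
  have hAB : cfc (fun t => t * r t) A = A * B := by
    rw [cfc_mul (fun t => t) r A (by fun_prop) hrc.continuousOn, cfc_id' ℝ A]
  have hABs : IsSelfAdjoint (A * B) := by
    rw [← hAB]; exact cfc_predicate _ A
  have hkey : A * (A * B) - (2 * a) • (A * B) + (a ^ 2 + ε ^ 2) • B = 1 := by
    have h1 : cfc (fun t : ℝ => (X ^ 2 - C (2 * a) * X + C (a ^ 2 + ε ^ 2) : ℝ[X]).eval t * r t) A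
        = 1 := by
      rw [← cfc_const_one ℝ A]
      apply cfc_congr
      intro t _
      simp only [hr, eval_add, eval_sub, eval_mul, eval_pow, eval_X, eval_C]
      have := hpos t
      field_simp
      ring
    rw [cfc_mul _ r A (by fun_prop) hrc.continuousOn, cfc_polynomial _ A hA] at h1
    rw [← h1]
    have e1 : (aeval A) (X ^ 2 - C (2 * a) * X + C (a ^ 2 + ε ^ 2) : ℝ[X])
        = A * A - (2 * a) • A + (a ^ 2 + ε ^ 2) • (1 : H →L[ℂ] H) := by
      rw [map_add, map_sub, map_mul, map_pow, aeval_X, aeval_C, aeval_C,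
        Algebra.algebraMap_eq_smul_one, Algebra.algebraMap_eq_smul_one, smul_one_mul, sq]
    rw [e1, add_mul, sub_mul, smul_mul_assoc, smul_mul_assoc, one_mul, mul_assoc]
  set w := B φ with hw
  have hmul : ∀ (a b : H →L[ℂ] H) (x : H), (a * b) x = a (b x) := fun _ _ _ => rfl
  have hkey2 : A (A w) - ((2 * a : ℝ) : ℂ) • (A w) + ((a ^ 2 + ε ^ 2 : ℝ) : ℂ) • w = φ := by
    have h0 := congrArg (fun T : H →L[ℂ] H => T φ) hkey
    rw [Complex.coe_smul, Complex.coe_smul]
    exact h0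
  refine ⟨((a : ℂ) - ε * Complex.I) • w - A w, ?_, ?_⟩
  · rw [map_sub, map_smul, smul_sub, smul_smul]
    have e1 : ((a : ℂ) + ε * Complex.I) * ((a : ℂ) - ε * Complex.I) = ((a ^ 2 + ε ^ 2 : ℝ) : ℂ) := by
      push_cast
      linear_combination (-(ε : ℂ) ^ 2) * Complex.I_sq
    rw [e1]
    rw [← hkey2]
    have e2 : ((2 * a : ℝ) : ℂ) • (A w) = (a : ℂ) • A w + (a : ℂ) • A w := by
      rw [← add_smul]; congr 1; push_cast; ring
    rw [e2, add_smul, sub_smul]
    abel
  · rw [inner_sub_right, inner_smul_right]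
    have h1 := inner_selfAdjoint_im B hB φ
    have h2 := inner_selfAdjoint_im (A * B) hABs φ
    rw [hmul] at h2
    rw [Complex.sub_im, Complex.mul_im, h2, h1]
    simp

end Pool.Agent.Helper99
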