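import Mathlib
import Pool.Agent.Helper99.Decim
import Pool.Agent.Helper99.Res
import Pool.Agent.Helper99.Poisson

set_option autoImplicit false
open MeasureTheory Filter Topology Polynomial
open scoped InnerProductSpace

namespace Pool.Agent.Helper99

theorem im_sq_eq (G : ℂ) : G.im ^ 2 = (‖G ^ 2‖ - (G ^ 2).re) / 2 := by
  rw [norm_pow, Complex.sq_norm, Complex.normSq_apply, sq G, Complex.mul_re]
  ring

theorem green_eq (Q : ℤ → ℝ) (c : ℝ) (hQ : ∀ n, |Q n| ≤ c) (k : ℕ)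
    (hodd : ∀ j, j < k → ∀ m : ℤ, Q (2 ^ j * (2 * m + 1)) = ff j)
    (hmul : ∀ m : ℤ, Q (2 ^ k * m) = ff k) (z : ℂ) (u : L2)
    (hu : z • u - op Q c hQ u = dl 0) (hP : aeval z (Pp k) ≠ 0) :
    ((aeval z (Xp k)) ^ 2 - 4) * (u : ℤ → ℂ) 0 ^ 2 = (aeval z (Pp k)) ^ 2 := by
  have hu' : ∀ n : ℤ, (z - Q n) * (u : ℤ → ℂ) n
      = (u : ℤ → ℂ) (n + 1) + (u : ℤ → ℂ) (n - 1) + (if n = 0 then 1 else 0) := by
    intro n
    have h1 := congrArg (fun v : L2 => (v : ℤ → ℂ) n) hu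
    simp only [lp.coeFn_sub, lp.coeFn_smul, Pi.sub_apply, Pi.smul_apply, smul_eq_mul, op_apply,
      dl_apply] at h1
    rw [← h1]
    ring
  have h2 := decim_res Q k hodd z u hu' k le_rfl
  have hp : ((2 : ℤ) ^ k) ≠ 0 := by positivity
  have h3 := lattice_green (fun m => (u : ℤ → ℂ) (2 ^ k * m)) (aeval z (Xp k)) (aeval z (Pp k))
    (by
      intro m
      have h := h2 m
      rw [hmul, sub_self, map_zero, zero_mul, add_zero] at h
      exact h)
    (L2_tendsto_nat u _ hp)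
    (by
      have := L2_tendsto_nat u (-(2 : ℤ) ^ k) (neg_ne_zero.mpr hp)
      refine this.congr (fun n => ?_)
      have e : -(2 : ℤ) ^ k * (n : ℤ) = 2 ^ k * -(n : ℤ) := by ring
      rw [e]) hP
  simpa using h3

/-- the boundary value of the Green function of a periodic approximant -/
theorem dens_limit (Q : ℤ → ℝ) (c : ℝ) (hQ : ∀ n, |Q n| ≤ c) (k : ℕ)
    (hodd : ∀ j, j < k → ∀ m : ℤ, Q (2 ^ j * (2 * m + 1)) = ff j)
    (hmul : ∀ m : ℤ, Q (2 ^ k * m) = ff k) (μ : Measure ℝ)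
    (hμ : ∀ f : ℝ → ℝ, Continuous f →
        Integrable f μ ∧ ∫ x, f x ∂μ = sm (op Q c hQ) (dl 0) f)
    (a : ℝ) (hx : ((Xp k).eval a) ^ 2 < 4) (hp : (Pp k).eval a ≠ 0) :
    Tendsto (fun ε : ℝ => ∫ t, ε / ((t - a) ^ 2 + ε ^ 2) ∂μ) (𝓝[>] 0)
      (𝓝 (Real.sqrt (((Pp k).eval a) ^ 2 / (4 - ((Xp k).eval a) ^ 2)))) := by
  set A := op Q c hQ with hA
  set x := (Xp k).eval a with hxdef
  set p := (Pp k).eval a with hpdef
  set Z : ℝ → ℂ := fun ε => (a : ℂ) + ε * Complex.I with hZ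
  have hZc : Continuous Z := by fun_prop
  have hXc : Continuous (fun ε => aeval (Z ε) (Xp k)) := (Xp k).continuous_aeval.comp hZc
  have hPc : Continuous (fun ε => aeval (Z ε) (Pp k)) := (Pp k).continuous_aeval.comp hZc
  have hZ0 : Z 0 = (a : ℂ) := by simp [hZ]
  have hX0 : aeval (Z 0) (Xp k) = (x : ℂ) := by
    rw [hZ0, hxdef]
    exact Polynomial.aeval_algebraMap_apply_eq_algebraMap_eval a (Xp k)
  have hP0 : aeval (Z 0) (Pp k) = (p : ℂ) := by
    rw [hZ0, hpdef]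
    exact Polynomial.aeval_algebraMap_apply_eq_algebraMap_eval a (Pp k)
  have hx4 : ((x : ℂ) ^ 2 - 4) ≠ 0 := by
    intro h
    have : ((x ^ 2 - 4 : ℝ) : ℂ) = 0 := by push_cast; exact h
    rw [Complex.ofReal_eq_zero] at this
    linarith
  set W : ℝ → ℂ := fun ε => (aeval (Z ε) (Pp k)) ^ 2 / ((aeval (Z ε) (Xp k)) ^ 2 - 4) with hW
  have hWc : ContinuousAt W 0 := by
    apply ContinuousAt.div
    · exact (hPc.pow 2).continuousAt
    · exact ((hXc.pow 2).sub continuous_const).continuousAt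
    · rw [hX0]; exact hx4
  have hW0 : W 0 = ((p ^ 2 / (x ^ 2 - 4) : ℝ) : ℂ) := by
    simp only [hW, hX0, hP0]
    push_cast
    rfl
  have hlim : Tendsto (fun ε => Real.sqrt ((‖W ε‖ - (W ε).re) / 2)) (𝓝[>] 0)
      (𝓝 (Real.sqrt (p ^ 2 / (4 - x ^ 2)))) := by
    have h1 : ContinuousAt (fun ε => Real.sqrt ((‖W ε‖ - (W ε).re) / 2)) 0 := by
      apply Real.continuous_sqrt.continuousAt.comp
      apply ContinuousAt.div_const
      apply ContinuousAt.sub hWc.norm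
      exact Complex.continuous_re.continuousAt.comp hWc
    have h2 : Real.sqrt ((‖W 0‖ - (W 0).re) / 2) = Real.sqrt (p ^ 2 / (4 - x ^ 2)) := by
      congr 1
      rw [hW0, Complex.norm_real, Complex.ofReal_re, Real.norm_eq_abs]
      have h3 : p ^ 2 / (x ^ 2 - 4) ≤ 0 := by
        apply div_nonpos_of_nonneg_of_nonpos (by positivity) (by linarith)
      rw [abs_of_nonpos h3]
      have h4 : x ^ 2 - 4 ≠ 0 := by linarith
      have h5 : 4 - x ^ 2 ≠ 0 := by linarith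
      field_simp
      ring
    rw [← h2]
    exact h1.tendsto.mono_left nhdsWithin_le_nhds
  refine hlim.congr' ?_
  have ev1 : ∀ᶠ ε in 𝓝[>] (0 : ℝ), aeval (Z ε) (Pp k) ≠ 0 := by
    apply (hPc.continuousAt.tendsto.mono_left nhdsWithin_le_nhds).eventually_ne
    rw [hP0]
    exact_mod_cast hp
  have ev2 : ∀ᶠ ε in 𝓝[>] (0 : ℝ), (aeval (Z ε) (Xp k)) ^ 2 - 4 ≠ 0 := by
    have hc : Continuous (fun ε => aeval (Z ε) (Xp k) ^ 2 - 4) := (hXc.pow 2).sub continuous_const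
    apply (hc.continuousAt.tendsto.mono_left nhdsWithin_le_nhds).eventually_ne
    rw [hX0]
    exact hx4
  filter_upwards [ev1, ev2, self_mem_nhdsWithin] with ε h1 h2 hε
  have hε' : 0 < ε := hε
  obtain ⟨u, hu1, hu2⟩ := exists_res A (op_selfAdjoint Q c hQ) (dl 0) a ε hε'
  have hg := green_eq Q c hQ k hodd hmul (Z ε) u hu1 h1
  have hG : W ε = (u : ℤ → ℂ) 0 ^ 2 := by
    simp only [hW]
    rw [div_eq_iff h2, ← hg]
    ring
  rw [inner_dl] at hu2
  have hcont : Continuous (fun t : ℝ => 1 / ((t - a) ^ 2 + ε ^ 2)) := by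
    apply Continuous.div continuous_const (by fun_prop)
    intro t
    positivity
  have hint := (hμ _ hcont).2
  have hF : ∫ t, ε / ((t - a) ^ 2 + ε ^ 2) ∂μ = - ((u : ℤ → ℂ) 0).im := by
    rw [hu2, neg_neg, ← hint, ← integral_const_mul]
    apply integral_congr_ae
    refine Filter.Eventually.of_forall (fun t => ?_)
    simp only
    rw [mul_one_div]
  have hF0 : 0 ≤ ∫ t, ε / ((t - a) ^ 2 + ε ^ 2) ∂μ := by
    apply integral_nonneg
    intro t
    positivity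
  rw [hG, ← im_sq_eq, Real.sqrt_sq_eq_abs, hF, ← abs_neg, abs_of_nonneg]
  rw [← hF]
  exact hF0

end Pool.Agent.Helper99
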