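import Mathlib
import Pool.Agent.Helper99.Dens

set_option autoImplicit false
open MeasureTheory Filter Topology Polynomial
open scoped InnerProductSpace

namespace Pool.Agent.Helper99

theorem arc_bound (Q : ℤ → ℝ) (c : ℝ) (hQ : ∀ n, |Q n| ≤ c) (k : ℕ)
    (hodd : ∀ j, j < k → ∀ m : ℤ, Q (2 ^ j * (2 * m + 1)) = ff j)
    (hmul : ∀ m : ℤ, Q (2 ^ k * m) = ff k) (b η : ℝ) (hη : 0 < η) :
    (η * sm (aeval (op Q c hQ) (Xp k)) (dl 0) (fun t : ℝ => 1 / ((t - b) ^ 2 + η ^ 2))) ^ 2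
      * ‖((b : ℂ) + η * Complex.I) ^ 2 - 4‖ ≤ 1 := by
  set A := op Q c hQ with hA
  set T := aeval A (Xp k) with hT
  have hTs : IsSelfAdjoint T := aeval_selfAdjoint A (op_selfAdjoint Q c hQ) _
  obtain ⟨v, hv1, hv2⟩ := exists_res T hTs (dl 0) b η hη
  have hTd : ∀ m : ℤ, T (dl (2 ^ k * m)) = dl (2 ^ k * (m + 1)) + dl (2 ^ k * (m - 1)) := by
    intro m
    have h := decim_dl Q c hQ k hodd k le_rfl m
    rw [hmul, sub_self, map_zero, zero_mul, add_zero] at h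
    exact h
  have hsym := ContinuousLinearMap.isSelfAdjoint_iff_isSymmetric.mp hTs
  have hTv : ∀ m : ℤ, (T v : ℤ → ℂ) (2 ^ k * m)
      = (v : ℤ → ℂ) (2 ^ k * (m + 1)) + (v : ℤ → ℂ) (2 ^ k * (m - 1)) := by
    intro m
    have h1 : inner ℂ (T (dl (2 ^ k * m))) v = inner ℂ (dl (2 ^ k * m)) (T v) := hsym _ _
    rw [inner_dl, hTd, inner_add_left, inner_dl, inner_dl] at h1
    exact h1.symm
  have hp : ((2 : ℤ) ^ k) ≠ 0 := by positivity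
  have h3 := lattice_green (fun m => (v : ℤ → ℂ) (2 ^ k * m)) ((b : ℂ) + η * Complex.I) 1
    (by
      intro m
      have h := congrArg (fun w : L2 => (w : ℤ → ℂ) (2 ^ k * m)) hv1
      simp only [lp.coeFn_sub, lp.coeFn_smul, Pi.sub_apply, Pi.smul_apply, smul_eq_mul,
        dl_apply, hTv] at h
      have e : ((2 : ℤ) ^ k * m = 0) ↔ m = 0 := by simp
      simp only [e] at h
      rw [← h]
      ring)
    (L2_tendsto_nat v _ hp)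
    (by
      have := L2_tendsto_nat v (-(2 : ℤ) ^ k) (neg_ne_zero.mpr hp)
      refine this.congr (fun n => ?_)
      have e : -(2 : ℤ) ^ k * (n : ℤ) = 2 ^ k * -(n : ℤ) := by ring
      rw [e]) one_ne_zero
  simp only [mul_zero, one_pow] at h3
  rw [inner_dl] at hv2
  have h4 : (η * sm T (dl 0) (fun t : ℝ => 1 / ((t - b) ^ 2 + η ^ 2))) ^ 2
      = ((v : ℤ → ℂ) 0).im ^ 2 := by
    rw [hv2]; ring
  have h5 : ((v : ℤ → ℂ) 0).im ^ 2 ≤ ‖(v : ℤ → ℂ) 0‖ ^ 2 := by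
    rw [Complex.sq_norm, Complex.normSq_apply]
    nlinarith [sq_nonneg ((v : ℤ → ℂ) 0).re]
  have h6 : ‖(v : ℤ → ℂ) 0‖ ^ 2 * ‖((b : ℂ) + η * Complex.I) ^ 2 - 4‖ = 1 := by
    rw [← norm_pow, ← norm_mul, mul_comm, h3, norm_one]
  rw [h4, ← h6]
  exact mul_le_mul_of_nonneg_right h5 (norm_nonneg _)

/-- centre -/
theorem arc_center (Q : ℤ → ℝ) (c : ℝ) (hQ : ∀ n, |Q n| ≤ c) (k : ℕ)
    (hodd : ∀ j, j < k → ∀ m : ℤ, Q (2 ^ j * (2 * m + 1)) = ff j)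
    (hmul : ∀ m : ℤ, Q (2 ^ k * m) = ff k) (ρ : ℝ) (hρ : 0 < ρ) :
    ρ ^ 2 * sm (aeval (op Q c hQ) (Xp k)) (dl 0) (fun t : ℝ => 1 / ((t - 0) ^ 2 + ρ ^ 2))
      ≤ ρ / 2 := by
  have h := arc_bound Q c hQ k hodd hmul 0 ρ hρ
  set s := sm (aeval (op Q c hQ) (Xp k)) (dl 0) (fun t : ℝ => 1 / ((t - 0) ^ 2 + ρ ^ 2)) with hs
  have h1 : ‖(((0 : ℝ) : ℂ) + ρ * Complex.I) ^ 2 - 4‖ = ρ ^ 2 + 4 := by
    have : (((0 : ℝ) : ℂ) + ρ * Complex.I) ^ 2 - 4 = ((-(ρ ^ 2 + 4) : ℝ) : ℂ) := by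
      push_cast
      linear_combination (ρ : ℂ) ^ 2 * Complex.I_sq
    rw [this, Complex.norm_real, Real.norm_eq_abs, abs_neg, abs_of_pos (by positivity)]
  rw [h1] at h
  have h2 : (2 * (ρ * s)) ^ 2 ≤ 1 := by
    have h0 := mul_nonneg (sq_nonneg (ρ * s)) (sq_nonneg ρ)
    nlinarith
  have h3 : 2 * (ρ * s) ≤ 1 := by
    by_contra hcon
    push Not at hcon
    nlinarith
  nlinarith

/-- edges -/
theorem arc_edge (Q : ℤ → ℝ) (c : ℝ) (hQ : ∀ n, |Q n| ≤ c) (k : ℕ)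
    (hodd : ∀ j, j < k → ∀ m : ℤ, Q (2 ^ j * (2 * m + 1)) = ff j)
    (hmul : ∀ m : ℤ, Q (2 ^ k * m) = ff k) (ρ : ℝ) (hρ : 0 < ρ) (b : ℝ) (hb : b ^ 2 = 4) :
    ρ ^ 4 * sm (aeval (op Q c hQ) (Xp k)) (dl 0) (fun t : ℝ => 1 / ((t - b) ^ 2 + (ρ ^ 2) ^ 2))
      ≤ ρ / 2 := by
  have h := arc_bound Q c hQ k hodd hmul b (ρ ^ 2) (by positivity)
  set s := sm (aeval (op Q c hQ) (Xp k)) (dl 0)
    (fun t : ℝ => 1 / ((t - b) ^ 2 + (ρ ^ 2) ^ 2)) with hs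
  have h1 : 4 * ρ ^ 2 ≤ ‖((b : ℂ) + ((ρ ^ 2 : ℝ) : ℂ) * Complex.I) ^ 2 - 4‖ := by
    have e : (((b : ℂ) + ((ρ ^ 2 : ℝ) : ℂ) * Complex.I) ^ 2 - 4).im = 2 * b * ρ ^ 2 := by
      simp only [sq, Complex.sub_im, Complex.mul_im, Complex.add_re, Complex.add_im,
        Complex.ofReal_re, Complex.ofReal_im, Complex.mul_re, Complex.I_re, Complex.I_im]
      norm_num
      ring
    have h2 := Complex.abs_im_le_norm (((b : ℂ) + ((ρ ^ 2 : ℝ) : ℂ) * Complex.I) ^ 2 - 4)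
    rw [e] at h2
    have h3 : |2 * b * ρ ^ 2| = 4 * ρ ^ 2 := by
      rw [abs_mul, abs_mul, abs_of_pos (by positivity : (0:ℝ) < ρ ^ 2)]
      have : |b| = 2 := by
        have h4 : |b| ^ 2 = 2 ^ 2 := by rw [sq_abs, hb]; norm_num
        exact (pow_left_inj₀ (abs_nonneg b) (by norm_num) (by norm_num)).mp h4
      rw [this]
      norm_num
    rw [h3] at h2
    exact h2
  have h2 : (ρ ^ 2 * s) ^ 2 * (4 * ρ ^ 2) ≤ 1 :=
    (mul_le_mul_of_nonneg_left h1 (sq_nonneg _)).trans h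
  have h3 : (2 * ρ ^ 3 * s) ^ 2 ≤ 1 := by
    calc (2 * ρ ^ 3 * s) ^ 2 = (ρ ^ 2 * s) ^ 2 * (4 * ρ ^ 2) := by ring
      _ ≤ 1 := h2
  have h4 : 2 * ρ ^ 3 * s ≤ 1 := by
    by_contra hcon
    push Not at hcon
    nlinarith
  nlinarith

end Pool.Agent.Helper99
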