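import Mathlib
import Pool.Agent.Helper99.Arc

set_option autoImplicit false
open MeasureTheory Filter Topology Polynomial
open scoped InnerProductSpace

namespace Pool.Agent.Helper99

theorem step_lemma (x p δ ρ c C c' C' : ℝ) (hx : x ^ 2 < 4) (h1 : c * (4 - x ^ 2) ≤ p ^ 2)
    (h2 : p ^ 2 ≤ C * (4 - x ^ 2)) (hC1 : C ≤ 1) (hc' : 0 ≤ c')
    (hC' : 0 ≤ C') (hδ0 : 0 ≤ δ) (hδ : δ ≤ ρ ^ 2) (hρ : 0 < ρ) (hρ1 : ρ ≤ 1 / 100)
    (hρx : ρ ≤ |x|) (hρy : ρ ^ 2 ≤ 4 - x ^ 2) (hcc : c' * (1 + 2 * ρ) ^ 2 ≤ c)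
    (hCC : C ≤ C' * (1 - 2 * ρ) ^ 2) :
    (x ^ 2 - 2 - δ * (x * p)) ^ 2 < 4 ∧
    c' * (4 - (x ^ 2 - 2 - δ * (x * p)) ^ 2) ≤ (x * p) ^ 2 ∧
    (x * p) ^ 2 ≤ C' * (4 - (x ^ 2 - 2 - δ * (x * p)) ^ 2) := by
  set y := 4 - x ^ 2 with hy
  have hy0 : 0 < y := by linarith
  have hy4 : y ≤ 4 := by nlinarith [sq_nonneg x]
  set α := δ * (x * p) with hα
  have hx2 : ρ ^ 2 ≤ x ^ 2 := by
    rw [← sq_abs x]
    exact pow_le_pow_left₀ hρ.le hρx 2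
  have hx0 : 0 < x ^ 2 := by nlinarith
  have hp1 : p ^ 2 ≤ y := h2.trans (by nlinarith)
  have hδ2 : δ ^ 2 ≤ ρ ^ 4 := by
    calc δ ^ 2 ≤ (ρ ^ 2) ^ 2 := pow_le_pow_left₀ hδ0 hδ 2
      _ = ρ ^ 4 := by ring
  have hA1 : α ^ 2 ≤ (2 * ρ * x ^ 2) ^ 2 := by
    calc α ^ 2 = δ ^ 2 * p ^ 2 * x ^ 2 := by rw [hα]; ring
      _ ≤ ρ ^ 4 * 4 * x ^ 2 := by
          apply mul_le_mul_of_nonneg_right _ hx0.le
          apply mul_le_mul hδ2 (hp1.trans hy4) (sq_nonneg _) (by positivity)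
      _ = 4 * ρ ^ 2 * x ^ 2 * ρ ^ 2 := by ring
      _ ≤ 4 * ρ ^ 2 * x ^ 2 * x ^ 2 := by
          apply mul_le_mul_of_nonneg_left hx2; positivity
      _ = _ := by ring
  have hA2 : α ^ 2 ≤ (2 * ρ * y) ^ 2 := by
    calc α ^ 2 = δ ^ 2 * p ^ 2 * x ^ 2 := by rw [hα]; ring
      _ ≤ ρ ^ 4 * y * 4 := by
          apply mul_le_mul _ hx.le (sq_nonneg _) (by positivity)
          apply mul_le_mul hδ2 hp1 (sq_nonneg _) (by positivity)
      _ = 4 * ρ ^ 2 * y * ρ ^ 2 := by ring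
      _ ≤ 4 * ρ ^ 2 * y * y := by
          apply mul_le_mul_of_nonneg_left hρy; positivity
      _ = _ := by ring
  have hB1 := abs_le_of_sq_le_sq' hA1 (by positivity)
  have hB2 := abs_le_of_sq_le_sq' hA2 (by positivity)
  have e : 4 - (x ^ 2 - 2 - α) ^ 2 = (x ^ 2 - α) * (y + α) := by rw [hy]; ring
  have l1 : x ^ 2 * (1 - 2 * ρ) ≤ x ^ 2 - α := by linarith [hB1.2]
  have l2 : x ^ 2 - α ≤ x ^ 2 * (1 + 2 * ρ) := by linarith [hB1.1]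
  have l3 : y * (1 - 2 * ρ) ≤ y + α := by linarith [hB2.1]
  have l4 : y + α ≤ y * (1 + 2 * ρ) := by linarith [hB2.2]
  have hr : 0 < 1 - 2 * ρ := by linarith
  have hlow : (1 - 2 * ρ) ^ 2 * (x ^ 2 * y) ≤ (x ^ 2 - α) * (y + α) := by
    calc (1 - 2 * ρ) ^ 2 * (x ^ 2 * y) = (x ^ 2 * (1 - 2 * ρ)) * (y * (1 - 2 * ρ)) := by ring
      _ ≤ _ := by
        apply mul_le_mul l1 l3 (by positivity)
        exact (mul_pos hx0 hr).le.trans l1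
  have hupp : (x ^ 2 - α) * (y + α) ≤ (1 + 2 * ρ) ^ 2 * (x ^ 2 * y) := by
    calc (x ^ 2 - α) * (y + α) ≤ (x ^ 2 * (1 + 2 * ρ)) * (y * (1 + 2 * ρ)) := by
          apply mul_le_mul l2 l4 _ (by positivity)
          exact (mul_pos hy0 hr).le.trans l3
      _ = _ := by ring
  have hxy : 0 < x ^ 2 * y := by positivity
  rw [← e] at hlow hupp
  refine ⟨?_, ?_, ?_⟩
  · have : 0 < (1 - 2 * ρ) ^ 2 * (x ^ 2 * y) := by positivity
    linarith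
  · calc c' * (4 - (x ^ 2 - 2 - α) ^ 2) ≤ c' * ((1 + 2 * ρ) ^ 2 * (x ^ 2 * y)) :=
          mul_le_mul_of_nonneg_left hupp hc'
      _ = (c' * (1 + 2 * ρ) ^ 2) * (x ^ 2 * y) := by ring
      _ ≤ c * (x ^ 2 * y) := mul_le_mul_of_nonneg_right hcc hxy.le
      _ = x ^ 2 * (c * y) := by ring
      _ ≤ x ^ 2 * p ^ 2 := mul_le_mul_of_nonneg_left h1 hx0.le
      _ = _ := by ring
  · calc (x * p) ^ 2 = x ^ 2 * p ^ 2 := by ring
      _ ≤ x ^ 2 * (C * y) := mul_le_mul_of_nonneg_left h2 hx0.le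
      _ = C * (x ^ 2 * y) := by ring
      _ ≤ (C' * (1 - 2 * ρ) ^ 2) * (x ^ 2 * y) := mul_le_mul_of_nonneg_right hCC hxy.le
      _ = C' * ((1 - 2 * ρ) ^ 2 * (x ^ 2 * y)) := by ring
      _ ≤ _ := mul_le_mul_of_nonneg_left hlow hC'

/-- good energies up to level `k` -/
def SS (k : ℕ) : Set ℝ :=
  {E | E ∈ Set.Icc (-1 : ℝ) 1 ∧ ∀ j, j < k →
    rr j ≤ |(Xp j).eval E| ∧ rr j ^ 2 ≤ 4 - ((Xp j).eval E) ^ 2}

theorem SS_zero : SS 0 = Set.Icc (-1 : ℝ) 1 := by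
  ext E; simp [SS]

theorem SS_succ (k : ℕ) : SS (k + 1) = SS k ∩ {E | rr k ≤ |(Xp k).eval E| ∧
    rr k ^ 2 ≤ 4 - ((Xp k).eval E) ^ 2} := by
  ext E
  simp only [SS, Set.mem_ofPred_eq, Set.mem_inter_iff]
  constructor
  · rintro ⟨h1, h2⟩
    exact ⟨⟨h1, fun j hj => h2 j (by omega)⟩, h2 k (by omega)⟩
  · rintro ⟨⟨h1, h2⟩, h3⟩
    refine ⟨h1, fun j hj => ?_⟩
    rcases Nat.lt_succ_iff_lt_or_eq.mp hj with h | rfl
    · exact h2 j h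
    · exact h3

theorem SS_meas (k : ℕ) : MeasurableSet (SS k) := by
  induction k with
  | zero => rw [SS_zero]; exact measurableSet_Icc
  | succ k ih =>
    rw [SS_succ]
    apply ih.inter
    apply MeasurableSet.inter
    · exact (isClosed_le continuous_const ((Xp k).continuous.abs)).measurableSet
    · exact (isClosed_le continuous_const
        (continuous_const.sub ((Xp k).continuous.pow 2))).measurableSet

theorem SS_inv (k : ℕ) (E : ℝ) (hE : E ∈ SS k) :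
    ((Xp k).eval E) ^ 2 < 4 ∧
    (1 / 4 * (1 - 8 * RR k)) * (4 - ((Xp k).eval E) ^ 2) ≤ ((Pp k).eval E) ^ 2 ∧
    ((Pp k).eval E) ^ 2 ≤ (1 / 3 * (1 + 8 * RR k)) * (4 - ((Xp k).eval E) ^ 2) := by
  induction k with
  | zero =>
    rw [SS_zero] at hE
    have h1 : E ^ 2 ≤ 1 := by
      have := abs_le.mpr hE
      rw [← sq_abs]
      exact pow_le_one₀ (abs_nonneg _) this
    have hR : RR 0 = 0 := by simp [RR]
    rw [Xp_zero, Pp_zero, eval_X, eval_one, hR]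
    refine ⟨by linarith, by nlinarith, by nlinarith⟩
  | succ k ih =>
    rw [SS_succ] at hE
    obtain ⟨h1, h2, h3⟩ := ih hE.1
    obtain ⟨h4, h5⟩ := hE.2
    have hR := RR_le k
    have hR0 := RR_nonneg k
    have hR1 := RR_succ k
    have hr := rr_le k
    have hr0 := rr_pos k
    rw [Xp_succ, Pp_succ]
    simp only [eval_sub, eval_mul, eval_pow, eval_C]
    have e2 : eval E (2 : ℝ[X]) = 2 := by simp
    rw [e2]
    refine step_lemma ((Xp k).eval E) ((Pp k).eval E) (dd k) (rr k) (1 / 4 * (1 - 8 * RR k))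
      (1 / 3 * (1 + 8 * RR k)) (1 / 4 * (1 - 8 * RR (k + 1))) (1 / 3 * (1 + 8 * RR (k + 1)))
      h1 h2 h3 ?_ ?_ ?_ (dd_nonneg k) (dd_le k) hr0 ?_ h4 h5 ?_ ?_
    · linarith
    · rw [hR1]; linarith
    · rw [hR1]; linarith
    · linarith
    · rw [hR1]
      nlinarith [mul_nonneg hR0 hr0.le, mul_pos hr0 hr0,
        mul_nonneg hR0 (mul_pos hr0 hr0).le, mul_pos (mul_pos hr0 hr0) hr0]
    · rw [hR1]
      nlinarith [mul_nonneg hR0 hr0.le, mul_pos hr0 hr0, mul_pos (mul_pos hr0 hr0) hr0,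
        mul_nonneg hR0 (mul_pos hr0 hr0).le]

end Pool.Agent.Helper99
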