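import Mathlib
import Pool.Agent.Helper99.Recur

set_option autoImplicit false
open MeasureTheory Filter Topology Polynomial
open scoped InnerProductSpace

namespace Pool.Agent.Helper99

theorem compare (c : ℝ) (hQ : ∀ k n, |Qk k n| ≤ c) (k : ℕ) (φ : ℝ → ℝ) (hφ : Continuous φ)
    (hφ0 : ∀ x, 0 ≤ φ x) (M : ℝ) (hφM : ∀ x, φ x ≤ M) (S : Set ℝ) (hS : MeasurableSet S)
    (hSS : S ⊆ SS k) :
    ENNReal.ofReal (1 / 3) * ∫⁻ E in S, ENNReal.ofReal (φ E)
      ≤ ENNReal.ofReal Real.pi * ENNReal.ofReal (sm (op (Qk k) c (hQ k)) (dl 0) φ) := by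
  obtain ⟨μ, hμf, hμ⟩ := exists_specMeasure (op (Qk k) c (hQ k))
    (op_selfAdjoint (Qk k) c (hQ k)) (dl 0)
  set h : ℝ → ℝ := fun a => Real.sqrt (((Pp k).eval a) ^ 2 / (4 - ((Xp k).eval a) ^ 2)) with hh
  have hR := RR_le k
  have hR0 := RR_nonneg k
  have hlim : ∀ a ∈ S, Tendsto (fun ε : ℝ => ∫ t, ε / ((t - a) ^ 2 + ε ^ 2) ∂μ) (𝓝[>] 0)
      (𝓝 (h a)) := by
    intro a ha
    obtain ⟨h1, h2, h3⟩ := SS_inv k a (hSS ha)
    apply dens_limit (Qk k) c (hQ k) k (fun j hj m => Qk_odd k j hj.le m) (Qk_mul k) μ hμ a h1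
    intro h0
    rw [h0] at h2
    have h4 : 0 < 1 / 4 * (1 - 8 * RR k) := by linarith
    have h5 : 0 < 4 - ((Xp k).eval a) ^ 2 := by linarith
    nlinarith [mul_pos h4 h5]
  have hd := density_le μ φ hφ hφ0 M hφM S hS h hlim
  have hle : ENNReal.ofReal (1 / 3) * ∫⁻ E in S, ENNReal.ofReal (φ E)
      ≤ ∫⁻ a in S, ENNReal.ofReal (φ a * h a) := by
    rw [← lintegral_const_mul' _ _ ENNReal.ofReal_ne_top]
    apply setLIntegral_mono' hS
    intro a ha
    rw [← ENNReal.ofReal_mul (by norm_num)]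
    apply ENNReal.ofReal_le_ofReal
    obtain ⟨h1, h2, h3⟩ := SS_inv k a (hSS ha)
    have h5 : 0 < 4 - ((Xp k).eval a) ^ 2 := by linarith
    have h6 : 1 / 3 ≤ h a := by
      rw [hh]
      apply Real.le_sqrt_of_sq_le
      rw [le_div_iff₀ h5]
      refine le_trans ?_ h2
      apply mul_le_mul_of_nonneg_right _ h5.le
      linarith
    calc 1 / 3 * φ a ≤ h a * φ a := mul_le_mul_of_nonneg_right h6 (hφ0 a)
      _ = φ a * h a := mul_comm _ _
  have he : ∫⁻ t, ENNReal.ofReal (φ t) ∂μ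
      = ENNReal.ofReal (sm (op (Qk k) c (hQ k)) (dl 0) φ) := by
    rw [← (hμ φ hφ).2, ofReal_integral_eq_lintegral_ofReal (hμ φ hφ).1
      (Filter.Eventually.of_forall hφ0)]
  rw [← he]
  exact hle.trans hd

/-- linearity of `sm` in the function, through the measure -/
theorem sm_add3 (A : L2 →L[ℂ] L2) (hA : IsSelfAdjoint A) (v : L2) (f g h : ℝ → ℝ)
    (hf : Continuous f) (hg : Continuous g) (hh : Continuous h) (a b c : ℝ) :
    sm A v (fun t => a * f t + b * g t + c * h t) = a * sm A v f + b * sm A v g + c * sm A v h := by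
  obtain ⟨μ, hμf, hμ⟩ := exists_specMeasure A hA v
  rw [← (hμ f hf).2, ← (hμ g hg).2, ← (hμ h hh).2, ← (hμ _ (by fun_prop)).2]
  rw [integral_add, integral_add, integral_const_mul, integral_const_mul, integral_const_mul]
  · exact (hμ f hf).1.const_mul a
  · exact (hμ g hg).1.const_mul b
  · exact ((hμ f hf).1.const_mul a).add ((hμ g hg).1.const_mul b)
  · exact (hμ h hh).1.const_mul c

/-- the test function -/
noncomputable def f0 (ρ t : ℝ) : ℝ := 1 / ((t - 0) ^ 2 + ρ ^ 2)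
noncomputable def f1 (ρ t : ℝ) : ℝ := 1 / ((t - 2) ^ 2 + (ρ ^ 2) ^ 2)
noncomputable def f2 (ρ t : ℝ) : ℝ := 1 / ((t - (-2)) ^ 2 + (ρ ^ 2) ^ 2)
noncomputable def FF (ρ t : ℝ) : ℝ :=
  2 * ρ ^ 2 * f0 ρ t + 2 * ρ ^ 4 * f1 ρ t + 2 * ρ ^ 4 * f2 ρ t

theorem f0_cont (ρ : ℝ) (hρ : 0 < ρ) : Continuous (f0 ρ) := by
  unfold f0
  apply Continuous.div continuous_const (by fun_prop)
  intro x; positivity

theorem f1_cont (ρ : ℝ) (hρ : 0 < ρ) : Continuous (f1 ρ) := by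
  unfold f1
  apply Continuous.div continuous_const (by fun_prop)
  intro x; positivity

theorem f2_cont (ρ : ℝ) (hρ : 0 < ρ) : Continuous (f2 ρ) := by
  unfold f2
  apply Continuous.div continuous_const (by fun_prop)
  intro x; positivity

theorem FF_cont (ρ : ℝ) (hρ : 0 < ρ) : Continuous (FF ρ) := by
  have h0 := f0_cont ρ hρ
  have h1 := f1_cont ρ hρ
  have h2 := f2_cont ρ hρ
  unfold FF
  fun_prop

theorem FF_nonneg (ρ t : ℝ) : 0 ≤ FF ρ t := by
  unfold FF f0 f1 f2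
  positivity

theorem FF_le (ρ t : ℝ) (hρ : 0 < ρ) : FF ρ t ≤ 6 := by
  have u0 : ρ ^ 2 * f0 ρ t ≤ 1 := by
    unfold f0
    rw [mul_one_div, div_le_one (by positivity)]
    nlinarith [sq_nonneg (t - 0)]
  have u1 : ρ ^ 4 * f1 ρ t ≤ 1 := by
    unfold f1
    rw [mul_one_div, div_le_one (by positivity)]
    nlinarith [sq_nonneg (t - 2)]
  have u2 : ρ ^ 4 * f2 ρ t ≤ 1 := by
    unfold f2
    rw [mul_one_div, div_le_one (by positivity)]
    nlinarith [sq_nonneg (t - (-2))]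
  unfold FF
  linarith

theorem FF_ge_one (ρ x : ℝ) (hρ : 0 < ρ) (hx4 : x ^ 2 < 4)
    (hbad : ¬ (ρ ≤ |x| ∧ ρ ^ 2 ≤ 4 - x ^ 2)) : 1 ≤ FF ρ x := by
  have v0 : 0 ≤ ρ ^ 2 * f0 ρ x := by unfold f0; positivity
  have v1 : 0 ≤ ρ ^ 4 * f1 ρ x := by unfold f1; positivity
  have v2 : 0 ≤ ρ ^ 4 * f2 ρ x := by unfold f2; positivity
  unfold FF
  rw [not_and_or] at hbad
  rcases hbad with hb | hb
  · push Not at hb
    have h1 : x ^ 2 ≤ ρ ^ 2 := by
      rw [← sq_abs]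
      exact pow_le_pow_left₀ (abs_nonneg _) hb.le 2
    have h2 : 1 ≤ 2 * (ρ ^ 2 * f0 ρ x) := by
      unfold f0
      rw [mul_one_div, ← mul_div_assoc, le_div_iff₀ (by positivity)]
      linarith
    linarith
  · push Not at hb
    rcases le_total 0 x with hx0 | hx0
    · have h1 : (x - 2) ^ 2 ≤ (ρ ^ 2) ^ 2 := by
        have h3 : 0 ≤ 2 - x := by nlinarith
        have h4 : 2 - x ≤ ρ ^ 2 := by nlinarith
        nlinarith
      have h2 : 1 ≤ 2 * (ρ ^ 4 * f1 ρ x) := by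
        unfold f1
        rw [mul_one_div, ← mul_div_assoc, le_div_iff₀ (by positivity)]
        nlinarith
      linarith
    · have h1 : (x - (-2)) ^ 2 ≤ (ρ ^ 2) ^ 2 := by
        have h3 : 0 ≤ 2 + x := by nlinarith
        have h4 : 2 + x ≤ ρ ^ 2 := by nlinarith
        nlinarith
      have h2 : 1 ≤ 2 * (ρ ^ 4 * f2 ρ x) := by
        unfold f2
        rw [mul_one_div, ← mul_div_assoc, le_div_iff₀ (by positivity)]
        nlinarith
      linarith

theorem sm_FF (c : ℝ) (hQ : ∀ k n, |Qk k n| ≤ c) (k : ℕ) (ρ : ℝ) (hρ : 0 < ρ) :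
    sm (op (Qk k) c (hQ k)) (dl 0) (fun t => FF ρ ((Xp k).eval t)) ≤ 3 * ρ := by
  have hAs : IsSelfAdjoint (op (Qk k) c (hQ k)) := op_selfAdjoint (Qk k) c (hQ k)
  have hodd : ∀ j, j < k → ∀ m : ℤ, Qk k (2 ^ j * (2 * m + 1)) = ff j :=
    fun j hj m => Qk_odd k j hj.le m
  have b0 := arc_center (Qk k) c (hQ k) k hodd (Qk_mul k) ρ hρ
  have b1 := arc_edge (Qk k) c (hQ k) k hodd (Qk_mul k) ρ hρ 2 (by norm_num)
  have b2 := arc_edge (Qk k) c (hQ k) k hodd (Qk_mul k) ρ hρ (-2) (by norm_num)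
  have hTs : IsSelfAdjoint (aeval (op (Qk k) c (hQ k)) (Xp k)) := aeval_selfAdjoint _ hAs _
  have e1 := sm_add3 (aeval (op (Qk k) c (hQ k)) (Xp k)) hTs (dl 0) (f0 ρ) (f1 ρ) (f2 ρ)
    (f0_cont ρ hρ) (f1_cont ρ hρ) (f2_cont ρ hρ) (2 * ρ ^ 2) (2 * ρ ^ 4) (2 * ρ ^ 4)
  have e2 := sm_comp (op (Qk k) c (hQ k)) hAs (dl 0) (Xp k) (FF ρ) (FF_cont ρ hρ)
  rw [← e2]
  refine le_trans (le_of_eq e1) ?_
  have c0 : ρ ^ 2 * sm (aeval (op (Qk k) c (hQ k)) (Xp k)) (dl 0) (f0 ρ) ≤ ρ / 2 := b0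
  have c1 : ρ ^ 4 * sm (aeval (op (Qk k) c (hQ k)) (Xp k)) (dl 0) (f1 ρ) ≤ ρ / 2 := b1
  have c2 : ρ ^ 4 * sm (aeval (op (Qk k) c (hQ k)) (Xp k)) (dl 0) (f2 ρ) ≤ ρ / 2 := b2
  linarith

theorem bad_measure (c : ℝ) (hQ : ∀ k n, |Qk k n| ≤ c) (k : ℕ) :
    volume (SS k \ SS (k + 1)) ≤ ENNReal.ofReal (30 * rr k) := by
  have hρ : 0 < rr k := rr_pos k
  have hsm := sm_FF c hQ k (rr k) hρ
  have hφc : Continuous (fun t => FF (rr k) ((Xp k).eval t)) :=
    (FF_cont (rr k) hρ).comp (Xp k).continuous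
  have hSm : MeasurableSet (SS k \ SS (k + 1)) := (SS_meas k).diff (SS_meas (k + 1))
  have hcomp := compare c hQ k (fun t => FF (rr k) ((Xp k).eval t)) hφc
    (fun t => FF_nonneg _ _) 6 (fun t => FF_le _ _ hρ) (SS k \ SS (k + 1)) hSm
    Set.sdiff_subset
  have hlow : volume (SS k \ SS (k + 1))
      ≤ ∫⁻ E in (SS k \ SS (k + 1)), ENNReal.ofReal (FF (rr k) ((Xp k).eval E)) := by
    rw [← setLIntegral_one]
    apply setLIntegral_mono' hSm
    intro E hE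
    rw [← ENNReal.ofReal_one]
    apply ENNReal.ofReal_le_ofReal
    obtain ⟨hx4, _, _⟩ := SS_inv k E hE.1
    apply FF_ge_one _ _ hρ hx4
    intro hcon
    apply hE.2
    rw [SS_succ]
    exact ⟨hE.1, hcon⟩
  have hfin : ENNReal.ofReal (1 / 3) * volume (SS k \ SS (k + 1))
      ≤ ENNReal.ofReal (1 / 3) * ENNReal.ofReal (30 * rr k) := by
    calc ENNReal.ofReal (1 / 3) * volume (SS k \ SS (k + 1))
        ≤ ENNReal.ofReal (1 / 3) * ∫⁻ E in (SS k \ SS (k + 1)),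
            ENNReal.ofReal (FF (rr k) ((Xp k).eval E)) := mul_le_mul' le_rfl hlow
      _ ≤ ENNReal.ofReal Real.pi * ENNReal.ofReal (sm (op (Qk k) c (hQ k)) (dl 0)
            (fun t => FF (rr k) ((Xp k).eval t))) := hcomp
      _ ≤ ENNReal.ofReal Real.pi * ENNReal.ofReal (3 * rr k) :=
          mul_le_mul' le_rfl (ENNReal.ofReal_le_ofReal hsm)
      _ = ENNReal.ofReal (Real.pi * (3 * rr k)) := (ENNReal.ofReal_mul Real.pi_pos.le).symm
      _ ≤ ENNReal.ofReal (1 / 3 * (30 * rr k)) := by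
          apply ENNReal.ofReal_le_ofReal
          have := Real.pi_lt_d2
          nlinarith
      _ = _ := ENNReal.ofReal_mul (by norm_num)
  have h13 : ENNReal.ofReal (1 / 3) ≠ 0 := by
    simp
  exact (ENNReal.mul_le_mul_iff_right h13 ENNReal.ofReal_ne_top).mp hfin

theorem SS_measure (c : ℝ) (hQ : ∀ k n, |Qk k n| ≤ c) (k : ℕ) :
    ENNReal.ofReal (2 - 30 * RR k) ≤ volume (SS k) := by
  induction k with
  | zero =>
    rw [SS_zero, Real.volume_Icc]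
    apply ENNReal.ofReal_le_ofReal
    simp [RR]
    norm_num
  | succ k ih =>
    have h1 : SS (k + 1) ⊆ SS k := by
      rw [SS_succ]; exact Set.inter_subset_left
    have h2 : volume (SS k) = volume (SS (k + 1)) + volume (SS k \ SS (k + 1)) := by
      rw [← measure_sdiff_add_inter (SS k) (SS_meas (k + 1)), Set.inter_eq_self_of_subset_right h1,
        add_comm]
    rw [h2] at ih
    have h3 := bad_measure c hQ k
    have h4 : ENNReal.ofReal (2 - 30 * RR k) ≤ volume (SS (k + 1)) + ENNReal.ofReal (30 * rr k) :=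
      ih.trans (by gcongr)
    have h5 : 2 - 30 * RR (k + 1) = (2 - 30 * RR k) - 30 * rr k := by
      rw [RR_succ]; ring
    have hr := rr_pos k
    rw [h5, ENNReal.ofReal_sub _ (by positivity)]
    exact tsub_le_iff_right.mpr h4

theorem SS_measure_one (c : ℝ) (hQ : ∀ k n, |Qk k n| ≤ c) (k : ℕ) : 1 ≤ volume (SS k) := by
  refine le_trans ?_ (SS_measure c hQ k)
  rw [← ENNReal.ofReal_one]
  apply ENNReal.ofReal_le_ofReal
  have := RR_le k
  linarith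

end Pool.Agent.Helper99
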