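import Mathlib
import Pool.Agent.Helper99.Meas

set_option autoImplicit false
open MeasureTheory Filter Topology Polynomial
open scoped InnerProductSpace

namespace Pool.Agent.Helper99

theorem op_tendsto (c : ℝ) (hV : ∀ n, |VV n| ≤ c) (hQ : ∀ k n, |Qk k n| ≤ c) :
    Tendsto (fun k => op (Qk k) c (hQ k)) atTop (𝓝 (op VV c hV)) := by
  rw [tendsto_iff_norm_sub_tendsto_zero, Metric.tendsto_atTop]
  intro ε hε
  obtain ⟨N, hN⟩ := VV_sub_Qk (ε / 2) (by positivity)
  refine ⟨N, fun k hk => ?_⟩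
  rw [Real.dist_eq, sub_zero, abs_of_nonneg (norm_nonneg _)]
  have h := op_sub_norm (Qk k) VV c (hQ k) hV (ε / 2) (by positivity) (fun n => by
    rw [abs_sub_comm]
    exact (hN k hk n).le)
  linarith

theorem not_singular (c : ℝ) (hV : ∀ n, |VV n| ≤ c) (hQ : ∀ k n, |Qk k n| ≤ c)
    (μ : Measure ℝ) [IsFiniteMeasure μ]
    (hμ : ∀ f : ℝ → ℝ, Continuous f →
        Integrable f μ ∧ ∫ x, f x ∂μ = sm (op VV c hV) (dl 0) f) :
    ¬ μ ⟂ₘ volume := by
  rintro ⟨s, hs, hs1, hs2⟩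
  obtain ⟨U, hU1, hU2, hU3⟩ := Set.exists_isOpen_lt_of_lt (μ := (volume : Measure ℝ)) sᶜ
    (ENNReal.ofReal (1 / 2)) (by rw [hs2]; simp)
  have hF : IsClosed Uᶜ := hU2.isClosed_compl
  have hFs : Uᶜ ⊆ s := by
    intro x hx
    by_contra h
    exact hx (hU1 h)
  have hμF : μ Uᶜ = 0 := measure_mono_null hFs hs1
  obtain ⟨O, hO1, hO2, hO3⟩ := Set.exists_isOpen_lt_of_lt (μ := μ) Uᶜ
    (ENNReal.ofReal (1 / 100)) (by rw [hμF]; simp)
  obtain ⟨φ, hφ0, hφ1, hφ⟩ := exists_continuous_zero_one_of_isClosed (hO2.isClosed_compl) hF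
    (by
      rw [Set.disjoint_left]
      intro x hx hx2
      exact hx (hO1 hx2))
  have hb : ∀ x, 0 ≤ φ x := fun x => (hφ x).1
  have hb1 : ∀ x, φ x ≤ 1 := fun x => (hφ x).2
  -- upper bound of the integral
  have hup : ∫ x, φ x ∂μ ≤ 1 / 100 := by
    have h1 : ∫ x, φ x ∂μ ≤ ∫ x, O.indicator (fun _ => (1 : ℝ)) x ∂μ := by
      apply integral_mono (hμ φ φ.continuous).1
      · exact (integrable_const (1 : ℝ)).indicator hO2.measurableSet
      · intro x
        by_cases hx : x ∈ O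
        · simp only [Set.indicator_of_mem hx]
          exact hb1 x
        · simp only [Set.indicator_of_notMem hx]
          have : φ x = 0 := hφ0 (by simpa using hx)
          rw [this]
    refine h1.trans ?_
    rw [integral_indicator_const _ hO2.measurableSet, smul_eq_mul, mul_one]
    rw [measureReal_def]
    exact ENNReal.toReal_le_of_le_ofReal (by norm_num) hO3.le
  -- lower bound for the approximants
  have hlow : ∀ k, 1 / 6 ≤ Real.pi * sm (op (Qk k) c (hQ k)) (dl 0) φ := by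
    intro k
    have hSm : MeasurableSet (SS k ∩ Uᶜ) := (SS_meas k).inter hF.measurableSet
    have hc := compare c hQ k φ φ.continuous hb 1 hb1 (SS k ∩ Uᶜ) hSm Set.inter_subset_left
    have h1 : ∫⁻ E in (SS k ∩ Uᶜ), ENNReal.ofReal (φ E) = volume (SS k ∩ Uᶜ) := by
      rw [← setLIntegral_one]
      apply setLIntegral_congr_fun hSm
      intro E hE
      have : φ E = 1 := hφ1 hE.2
      simp [this]
    rw [h1] at hc
    have h2 : ENNReal.ofReal (1 / 2) ≤ volume (SS k ∩ Uᶜ) := by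
      have h3 := SS_measure_one c hQ k
      have h4 : volume (SS k) ≤ volume (SS k ∩ Uᶜ) + volume U := by
        calc volume (SS k) ≤ volume ((SS k ∩ Uᶜ) ∪ U) := by
              apply measure_mono
              intro x hx
              by_cases hxU : x ∈ U
              · exact Or.inr hxU
              · exact Or.inl ⟨hx, hxU⟩
          _ ≤ _ := measure_union_le _ _
      have h5 : (1 : ENNReal) ≤ volume (SS k ∩ Uᶜ) + ENNReal.ofReal (1 / 2) :=
        h3.trans (h4.trans (by gcongr))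
      have h6 : (1 : ENNReal) = ENNReal.ofReal (1 / 2) + ENNReal.ofReal (1 / 2) := by
        rw [← ENNReal.ofReal_add (by norm_num) (by norm_num)]
        norm_num
      rw [h6] at h5
      exact (ENNReal.add_le_add_iff_right ENNReal.ofReal_ne_top).mp h5
    have h7 : ENNReal.ofReal (1 / 6)
        ≤ ENNReal.ofReal (Real.pi * sm (op (Qk k) c (hQ k)) (dl 0) φ) := by
      rw [ENNReal.ofReal_mul Real.pi_pos.le]
      refine le_trans ?_ hc
      calc ENNReal.ofReal (1 / 6) = ENNReal.ofReal (1 / 3) * ENNReal.ofReal (1 / 2) := by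
            rw [← ENNReal.ofReal_mul (by norm_num)]
            norm_num
        _ ≤ _ := mul_le_mul' le_rfl h2
    by_contra hcon
    push Not at hcon
    have h8 := (ENNReal.ofReal_lt_ofReal_iff (by norm_num)).mpr hcon
    exact absurd h7 (not_le.mpr h8)
  have hlim := (sm_tendsto (fun k => op (Qk k) c (hQ k)) (op VV c hV)
    (fun k => op_selfAdjoint _ _ _) (op_selfAdjoint _ _ _) (op_tendsto c hV hQ) (dl 0) φ
    φ.continuous).const_mul Real.pi
  have h9 := ge_of_tendsto' hlim hlow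
  rw [← (hμ φ φ.continuous).2] at h9
  have := Real.pi_lt_d2
  have := Real.pi_pos
  have h10 : Real.pi * ∫ x, φ x ∂μ ≤ Real.pi * (1 / 100) :=
    mul_le_mul_of_nonneg_left hup Real.pi_pos.le
  linarith

theorem moments (Q : ℤ → ℝ) (c : ℝ) (hQ : ∀ n, |Q n| ≤ c) (φ : L2)
    (μ : Measure ℝ) [IsFiniteMeasure μ]
    (hμ : ∀ f : ℝ → ℝ, Continuous f →
        Integrable f μ ∧ ∫ x, f x ∂μ = sm (op Q c hQ) φ f) (k : ℕ) :
    Integrable (fun x : ℝ => x ^ k) μ ∧
            ((∫ x, x ^ k ∂μ : ℝ) : ℂ) =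
              ∑' n : ℤ, (starRingEnd ℂ) (φ n) *
                (Nat.iterate (fun ψ : ℤ → ℂ => fun m : ℤ =>
                  ψ (m + 1) + ψ (m - 1) + (Q m : ℂ) * ψ m) k φ) n := by
  have hs : IsSelfAdjoint (op Q c hQ) := op_selfAdjoint _ _ _
  have h1 := hμ (fun x => x ^ k) (by fun_prop)
  refine ⟨h1.1, ?_⟩
  rw [h1.2]
  have h2 := sm_poly (op Q c hQ) hs φ (X ^ k)
  simp only [eval_pow, eval_X, map_pow, aeval_X] at h2
  rw [h2]
  have h3 : IsSelfAdjoint ((op Q c hQ) ^ k) := hs.pow k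
  have h4 := inner_selfAdjoint_im _ h3 φ
  have h5 : (((inner ℂ φ (((op Q c hQ) ^ k) φ)).re : ℝ) : ℂ)
      = inner ℂ φ (((op Q c hQ) ^ k) φ) := by
    apply Complex.ext
    · rw [Complex.ofReal_re]
    · rw [Complex.ofReal_im, h4]
  rw [h5, lp.inner_eq_tsum]
  apply tsum_congr
  intro n
  rw [op_pow_apply]
  simp only [RCLike.inner_apply]
  rw [mul_comm]

theorem VV_limitPeriodic (ε : ℝ) (hε : 0 < ε) : ∃ p : ℤ, p ≠ 0 ∧ ∃ Q : ℤ → ℝ,
    Function.Periodic Q p ∧ ∀ n : ℤ, |VV n - Q n| < ε := by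
  obtain ⟨N, hN⟩ := VV_sub_Qk ε hε
  exact ⟨2 ^ N, by positivity, Qk N, Qk_periodic N, hN N le_rfl⟩

theorem iterate_eig (k : ℕ) :
    Nat.iterate (fun ψ : ℤ → ℂ => fun m : ℤ =>
      ψ (m + 1) + ψ (m - 1) + (VV m : ℂ) * ψ m) k (fun n => (eig n : ℂ))
      = fun n => ((KK 0 ^ k * eig n : ℝ) : ℂ) := by
  induction k with
  | zero => simp
  | succ k ih =>
    rw [Function.iterate_succ_apply', ih]
    funext m
    have h := eig_eq m
    have h2 : KK 0 ^ (k + 1) * eig m
        = KK 0 ^ k * eig (m + 1) + KK 0 ^ k * eig (m - 1) + VV m * (KK 0 ^ k * eig m) := by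
      unfold VV
      rw [pow_succ]
      linear_combination (-(KK 0 ^ k)) * h
    rw [h2]
    push_cast
    ring

/-- The counterexample. -/
theorem counterexample : ∃ V : ℤ → ℝ,
      (∀ ε : ℝ, 0 < ε → ∃ p : ℤ, p ≠ 0 ∧ ∃ Q : ℤ → ℝ,
          Function.Periodic Q p ∧ ∀ n : ℤ, |V n - Q n| < ε) ∧
      (∃ φ : ℤ → ℂ, Summable (fun n : ℤ => ‖φ n‖ ^ 2) ∧
        ∃ μ : Measure ℝ, IsFiniteMeasure μ ∧
          (∀ k : ℕ, Integrable (fun x : ℝ => x ^ k) μ ∧
            ((∫ x, x ^ k ∂μ : ℝ) : ℂ) =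
              ∑' n : ℤ, (starRingEnd ℂ) (φ n) *
                (Nat.iterate (fun ψ : ℤ → ℂ => fun m : ℤ =>
                  ψ (m + 1) + ψ (m - 1) + (V m : ℂ) * ψ m) k φ) n) ∧
          ¬ μ ⟂ₘ volume) ∧
      ∃ φ : ℤ → ℂ, Summable (fun n : ℤ => ‖φ n‖ ^ 2) ∧
        ∃ μ : Measure ℝ, IsFiniteMeasure μ ∧
          (∀ k : ℕ, Integrable (fun x : ℝ => x ^ k) μ ∧
              ((∫ x, x ^ k ∂μ : ℝ) : ℂ) =
                ∑' n : ℤ, (starRingEnd ℂ) (φ n) *
                  (Nat.iterate (fun ψ : ℤ → ℂ => fun m : ℤ =>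
                    ψ (m + 1) + ψ (m - 1) + (V m : ℂ) * ψ m) k φ) n) ∧
          ¬ μ ≪ volume := by
  obtain ⟨c, hV, hQ⟩ := VQ_bdd
  refine ⟨VV, VV_limitPeriodic, ?_, ?_⟩
  · obtain ⟨μ, hμf, hμ⟩ := exists_specMeasure (op VV c hV) (op_selfAdjoint VV c hV) (dl 0)
    refine ⟨(dl 0 : ℤ → ℂ), (memlp_iff _).mp (dl 0).2, μ, hμf,
      fun k => moments VV c hV (dl 0) μ hμ k, not_singular c hV hQ μ hμ⟩
  · have hsum : Summable (fun n : ℤ => ‖(eig n : ℂ)‖ ^ 2) := by
      refine summable_eig.congr (fun n => ?_)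
      rw [Complex.norm_real, Real.norm_eq_abs, sq_abs]
    set N := ∑' n : ℤ, eig n ^ 2 with hN
    have hNpos : 0 < N := by
      apply summable_eig.tsum_pos (fun n => sq_nonneg _) 0
      rw [eig_zero]; norm_num
    refine ⟨fun n => (eig n : ℂ), hsum, ENNReal.ofReal N • Measure.dirac (KK 0), ?_, ?_, ?_⟩
    · exact Measure.smul_finite _ ENNReal.ofReal_ne_top
    · intro k
      refine ⟨?_, ?_⟩
      · apply Integrable.smul_measure _ ENNReal.ofReal_ne_top
        exact integrable_dirac (by simp)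
      · rw [integral_smul_measure, integral_dirac, iterate_eig]
        rw [ENNReal.toReal_ofReal hNpos.le, hN, smul_eq_mul, ← tsum_mul_right,
          Complex.ofReal_tsum]
        apply tsum_congr
        intro n
        rw [Complex.conj_ofReal]
        push_cast
        ring
    · intro hac
      have h1 := hac (Real.volume_singleton (a := KK 0))
      rw [Measure.smul_apply, Measure.dirac_apply' _ (measurableSet_singleton _)] at h1
      simp at h1
      linarith

end Pool.Agent.Helper99
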